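import Pool.Agent.Lib.MP_b9add9_lc.Uni.Push
import Pool.Agent.Lib.MP_80aaf5_lc.Few2.Defs

/-!
# Simulation with the join of oracles, three steps for each step
-/

namespace ESY.Alg

open ESY ESY.Few

variable (e : Bool) (M : Machine)

/-- coding of the states -/
def eS : Fin (9 * M.q + 8 + 1) ≃ Fin 9 × Fin (M.q + 1) :=
  (finCongr (by ring)).trans finProdFinEquiv.symm

/-- the instructions of the simulating machine (with `e = true` it finally asks a question to the
second component of the join) -/
def codeP : Fin 9 × Fin (M.q + 1) → Instr (M.k + 2 + 1) (9 * M.q + 8 + 1)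
  | (0, s) => match M.code s with
    | .push i b n => .push i.castSucc b ((eS M).symm (1, n))
    | .pop i a b c => .pop i.castSucc ((eS M).symm (1, a)) ((eS M).symm (1, b)) ((eS M).symm (1, c))
    | .query i _ _ => .push i.castSucc false ((eS M).symm (3, s))
    | .halt v => if e && v then .push (Fin.castSucc 0) true ((eS M).symm (6, s)) else .halt v
  | (1, n) => .pop (Fin.last _) ((eS M).symm (2, n)) ((eS M).symm (2, n)) ((eS M).symm (2, n))
  | (2, n) => .pop (Fin.last _) ((eS M).symm (0, n)) ((eS M).symm (0, n)) ((eS M).symm (0, n))
  | (3, s) => match M.code s with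
    | .query i _ _ => .query i.castSucc ((eS M).symm (4, s)) ((eS M).symm (5, s))
    | _ => .halt false
  | (4, s) => match M.code s with
    | .query i a _ => .pop i.castSucc ((eS M).symm (0, a)) ((eS M).symm (0, a)) ((eS M).symm (0, a))
    | _ => .halt false
  | (5, s) => match M.code s with
    | .query i _ b => .pop i.castSucc ((eS M).symm (0, b)) ((eS M).symm (0, b)) ((eS M).symm (0, b))
    | _ => .halt false
  | (6, s) => .query (Fin.castSucc 0) ((eS M).symm (7, s)) ((eS M).symm (8, s))
  | (7, _) => .halt false
  | (8, _) => .halt true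

/-- the simulating machine -/
def lft : Machine where
  k := M.k + 1
  q := 9 * M.q + 8
  code := fun z => codeP e M (eS M z)

variable {e M}

/-- the stacks of the simulating machine -/
def ss (f : Fin (M.k + 2) → List Bool) : Fin (M.k + 2 + 1) → List Bool :=
  Fin.snoc (α := fun _ => List Bool) f []

/-- configurations of the simulating machine -/
def cf (t : Fin 9) (s : Fin (M.q + 1)) (f : Fin (M.k + 2 + 1) → List Bool) : Cfg (lft e M) :=
  ⟨(eS M).symm (t, s), f⟩

theorem code_cf (t : Fin 9) (s : Fin (M.q + 1)) :
    (lft e M).code ((eS M).symm (t, s)) = codeP e M (t, s) := by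
  change codeP e M (eS M ((eS M).symm (t, s))) = _
  rw [Equiv.apply_symm_apply]

theorem ss_cast (f : Fin (M.k + 2) → List Bool) (i : Fin (M.k + 2)) : ss f i.castSucc = f i :=
  Fin.snoc_castSucc (α := fun _ => List Bool) [] f i

theorem ss_last (f : Fin (M.k + 2) → List Bool) : ss f (Fin.last _) = [] :=
  Fin.snoc_last (α := fun _ => List Bool) [] f

theorem ss_update (f : Fin (M.k + 2) → List Bool) (i : Fin (M.k + 2)) (l : List Bool) :
    Function.update (ss f) i.castSucc l = ss (Function.update f i l) :=
  (Fin.snoc_update (α := fun _ => List Bool) [] f i l).symm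

section steps

variable (O : Oracle)

theorem st_push {t t' : Fin 9} {s n : Fin (M.q + 1)} {i : Fin (M.k + 2)} {b : Bool}
    (h : codeP e M (t, s) = .push i.castSucc b ((eS M).symm (t', n)))
    (f : Fin (M.k + 2) → List Bool) :
    step O (lft e M) (cf t s (ss f)) = cf t' n (ss (Function.update f i (b :: f i))) := by
  unfold step
  have h1 : (lft e M).code (cf t s (ss f)).state = .push i.castSucc b ((eS M).symm (t', n)) :=
    (code_cf t s).trans h
  have h2 : (cf (e := e) t s (ss f)).stack i.castSucc = f i := ss_cast f i
  rw [h1]
  simp only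
  rw [h2]
  exact congrArg (Cfg.mk (M := lft e M) ((eS M).symm (t', n))) (ss_update f i _)

theorem st_dummy {t t' : Fin 9} {s n : Fin (M.q + 1)} {n' n'' : Fin (9 * M.q + 8 + 1)}
    (h : codeP e M (t, s) = .pop (Fin.last _) ((eS M).symm (t', n)) n' n'')
    (f : Fin (M.k + 2) → List Bool) :
    step O (lft e M) (cf t s (ss f)) = cf t' n (ss f) := by
  unfold step
  have h1 : (lft e M).code (cf t s (ss f)).state =
      .pop (Fin.last _) ((eS M).symm (t', n)) n' n'' := (code_cf t s).trans h
  rw [h1]
  have h2 : (cf (e := e) t s (ss f)).stack (Fin.last _) = [] := ss_last f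
  simp only
  rw [h2]
  rfl

theorem st_pop {t t' : Fin 9} {s n n' n'' : Fin (M.q + 1)} {i : Fin (M.k + 2)}
    (h : codeP e M (t, s) = .pop i.castSucc ((eS M).symm (t', n)) ((eS M).symm (t', n'))
      ((eS M).symm (t', n''))) (f : Fin (M.k + 2) → List Bool) :
    step O (lft e M) (cf t s (ss f)) = match f i with
      | [] => cf t' n (ss f)
      | false :: l => cf t' n' (ss (Function.update f i l))
      | true :: l => cf t' n'' (ss (Function.update f i l)) := by
  unfold step
  have h1 : (lft e M).code (cf t s (ss f)).state = .pop i.castSucc ((eS M).symm (t', n))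
      ((eS M).symm (t', n')) ((eS M).symm (t', n'')) := (code_cf t s).trans h
  rw [h1]
  have h2 : (cf (e := e) t s (ss f)).stack i.castSucc = f i := ss_cast f i
  simp only
  rw [h2]
  rcases f i with _ | ⟨_ | _, l⟩
  · rfl
  · exact congrArg (Cfg.mk (M := lft e M) ((eS M).symm (t', n'))) (ss_update f i l)
  · exact congrArg (Cfg.mk (M := lft e M) ((eS M).symm (t', n''))) (ss_update f i l)

theorem st_query {t t' t'' : Fin 9} {s n n' : Fin (M.q + 1)} {i : Fin (M.k + 2)}
    (h : codeP e M (t, s) = .query i.castSucc ((eS M).symm (t', n)) ((eS M).symm (t'', n')))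
    (f : Fin (M.k + 2) → List Bool) :
    step O (lft e M) (cf t s (ss f)) = if O (f i) = true then cf t'' n' (ss f) else
      cf t' n (ss f) := by
  unfold step
  have h1 : (lft e M).code (cf t s (ss f)).state =
      .query i.castSucc ((eS M).symm (t', n)) ((eS M).symm (t'', n')) := (code_cf t s).trans h
  rw [h1]
  have h2 : (cf (e := e) t s (ss f)).stack i.castSucc = f i := ss_cast f i
  simp only
  rw [h2]
  generalize O (f i) = v
  cases v
  · rfl
  · rfl

theorem st_halt {t : Fin 9} {s : Fin (M.q + 1)} {v : Bool}
    (h : codeP e M (t, s) = .halt v) (f : Fin (M.k + 2 + 1) → List Bool) :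
    step O (lft e M) (cf t s f) = cf t s f := by
  unfold step
  have h1 : (lft e M).code (cf t s f).state = .halt v := (code_cf t s).trans h
  rw [h1]

end steps

/-- three steps of the simulating machine -/
theorem three (O T : Oracle) (c : Cfg M) (he : e = false ∨ M.code c.state ≠ .halt true) :
    (step (join O T) (lft e M))^[3] (cf 0 c.state (ss c.stack)) =
      cf 0 (step O M c).state (ss (step O M c).stack) := by
  obtain ⟨s, f⟩ := c
  rw [Function.iterate_succ_apply, Function.iterate_succ_apply, Function.iterate_succ_apply,
    Function.iterate_zero_apply]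
  have hd1 : ∀ (n : Fin (M.q + 1)) (g : Fin (M.k + 2) → List Bool),
      step (join O T) (lft e M) (cf 1 n (ss g)) = cf 2 n (ss g) :=
    fun n g => st_dummy _ (t := 1) (t' := 2) (s := n) (n := n) rfl g
  have hd2 : ∀ (n : Fin (M.q + 1)) (g : Fin (M.k + 2) → List Bool),
      step (join O T) (lft e M) (cf 2 n (ss g)) = cf 0 n (ss g) :=
    fun n g => st_dummy _ (t := 2) (t' := 0) (s := n) (n := n) rfl g
  cases hc : M.code s with
  | push i b n =>
    have h0 : codeP e M (0, s) = .push i.castSucc b ((eS M).symm (1, n)) := by
      simp only [codeP, hc]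
    have e : step O M ⟨s, f⟩ = ⟨n, Function.update f i (b :: f i)⟩ := by
      unfold step
      simp only [hc]
    rw [e]
    simp only
    rw [st_push _ h0, hd1, hd2]
  | pop i a b d =>
    have h0 : codeP e M (0, s) = .pop i.castSucc ((eS M).symm (1, a)) ((eS M).symm (1, b))
        ((eS M).symm (1, d)) := by
      simp only [codeP, hc]
    have h1 := st_pop (join O T) h0 f
    rcases hf : f i with _ | ⟨_ | _, l⟩
    · have e : step O M ⟨s, f⟩ = ⟨a, f⟩ := by
        unfold step
        simp only [hc, hf]
      rw [hf] at h1
      simp only at h1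
      rw [e]
      simp only
      rw [h1, hd1, hd2]
    · have e : step O M ⟨s, f⟩ = ⟨b, Function.update f i l⟩ := by
        unfold step
        simp only [hc, hf]
      rw [hf] at h1
      simp only at h1
      rw [e]
      simp only
      rw [h1, hd1, hd2]
    · have e : step O M ⟨s, f⟩ = ⟨d, Function.update f i l⟩ := by
        unfold step
        simp only [hc, hf]
      rw [hf] at h1
      simp only at h1
      rw [e]
      simp only
      rw [h1, hd1, hd2]
  | query i a b =>
    have h0 : codeP e M (0, s) = .push i.castSucc false ((eS M).symm (3, s)) := by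
      simp only [codeP, hc]
    have h3 : codeP e M (3, s) = .query i.castSucc ((eS M).symm (4, s)) ((eS M).symm (5, s)) := by
      simp only [codeP, hc]
    have h4 : codeP e M (4, s) = .pop i.castSucc ((eS M).symm (0, a)) ((eS M).symm (0, a))
        ((eS M).symm (0, a)) := by
      simp only [codeP, hc]
    have h5 : codeP e M (5, s) = .pop i.castSucc ((eS M).symm (0, b)) ((eS M).symm (0, b))
        ((eS M).symm (0, b)) := by
      simp only [codeP, hc]
    have hu : Function.update f i (false :: f i) i = false :: f i := Function.update_self _ _ _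
    have hj : join O T (false :: f i) = O (f i) := rfl
    have hr : Function.update (Function.update f i (false :: f i)) i (f i) = f := by
      rw [Function.update_idem, Function.update_eq_self]
    have q3 := st_query (join O T) h3 (Function.update f i (false :: f i))
    have q4 := st_pop (join O T) h4 (Function.update f i (false :: f i))
    have q5 := st_pop (join O T) h5 (Function.update f i (false :: f i))
    rw [hu] at q3 q4 q5
    simp only at q4 q5
    rw [hr] at q4 q5
    rw [hj] at q3
    by_cases hO : O (f i) = true
    · have e : step O M ⟨s, f⟩ = ⟨b, f⟩ := by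
        unfold step
        simp only [hc, hO, if_true]
      rw [if_pos hO] at q3
      rw [e]
      simp only
      rw [st_push _ h0, q3, q5]
    · have e : step O M ⟨s, f⟩ = ⟨a, f⟩ := by
        unfold step
        simp only [hc, hO]
        rfl
      rw [if_neg hO] at q3
      rw [e]
      simp only
      rw [st_push _ h0, q3, q4]
  | halt v =>
    have h0 : codeP e M (0, s) = .halt v := by
      have h1 : (e && v) = false := by
        rcases he with rfl | he
        · rfl
        · cases v
          · exact Bool.and_false _
          · exact absurd hc he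
      simp only [codeP, hc, h1, Bool.false_eq_true, if_false]
    have e : step O M ⟨s, f⟩ = ⟨s, f⟩ := by
      unfold step
      simp only [hc]
    rw [e]
    simp only
    rw [st_halt _ h0, st_halt _ h0, st_halt _ h0]

theorem run3 (O T : Oracle) (t : ℕ) : ∀ c : Cfg M,
    (step (join O T) (lft false M))^[3 * t] (cf 0 c.state (ss c.stack)) =
      cf 0 ((step O M)^[t] c).state (ss ((step O M)^[t] c).stack) := by
  induction t with
  | zero => intro c; rfl
  | succ t ih =>
    intro c
    rw [Nat.mul_succ, Function.iterate_add_apply, three _ _ _ (Or.inl rfl), ih,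
      Function.iterate_succ_apply]

theorem start_lft (x w : List Bool) :
    start (lft e M) x w = cf 0 (start M x w).state (ss (start M x w).stack) := by
  have h1 : (eS M).symm (0, 0) = 0 := by
    apply Fin.ext
    simp [eS, finProdFinEquiv]
  have h2 : (fun i : Fin (M.k + 1 + 2) => if i = 0 then x else if i = 1 then w else []) =
      ss (start M x w).stack := by
    funext i
    refine Fin.lastCases ?_ (fun j => ?_) i
    · rw [ss_last]
      have a1 : (Fin.last (M.k + 2)) ≠ 0 := by
        intro h
        have := congrArg Fin.val h
        simp at this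
      have a2 : (Fin.last (M.k + 2)) ≠ 1 := by
        intro h
        have := congrArg Fin.val h
        simp at this
      exact (if_neg a1).trans (if_neg a2)
    · rw [ss_cast]
      change _ = if j = 0 then x else if j = 1 then w else []
      have a1 : (j.castSucc = (0 : Fin (M.k + 2 + 1))) ↔ j = 0 := by
        rw [Fin.ext_iff, Fin.ext_iff]
        rfl
      have a2 : (j.castSucc = (1 : Fin (M.k + 2 + 1))) ↔ j = 1 := by
        rw [Fin.ext_iff, Fin.ext_iff]
        simp
      by_cases hj : j = 0
      · rw [if_pos hj]
        exact if_pos (a1.2 hj)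
      · rw [if_neg hj]
        refine (if_neg fun h => hj (a1.1 h)).trans ?_
        by_cases hj' : j = 1
        · rw [if_pos hj']
          exact if_pos (a2.2 hj')
        · rw [if_neg hj']
          exact if_neg fun h => hj' (a2.1 h)
  unfold start cf
  rw [h1]
  exact congrArg (Cfg.mk (M := lft e M) 0) h2

theorem codeP_halt (s : Fin (M.q + 1)) :
    codeP false M (0, s) = .halt true ↔ M.code s = .halt true := by
  simp only [codeP, Bool.false_and, Bool.false_eq_true, if_false]
  cases M.code s with
  | halt v =>
    simp only
    constructor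
    · intro h1
      rw [Instr.halt.inj h1]
    · intro h1
      rw [Instr.halt.inj h1]
  | push i v n => simp
  | pop i u v n => simp
  | query i u v => simp

theorem accepts_lft (O T : Oracle) (x w : List Bool) (t : ℕ) :
    AcceptsIn (join O T) (lft false M) x w (3 * t) ↔ AcceptsIn O M x w t := by
  unfold AcceptsIn
  rw [start_lft, run3]
  have h : (lft false M).code (cf 0 ((step O M)^[t] (start M x w)).state
      (ss ((step O M)^[t] (start M x w)).stack)).state =
      codeP false M (0, ((step O M)^[t] (start M x w)).state) := code_cf _ _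
  rw [h]
  exact codeP_halt _

theorem inNP_join (O T : Oracle) (p : List Bool) : InNP (join O T) {x | p ++ x ∈ Test O} := by
  obtain ⟨c, hc⟩ : PB fun n => 3 * (8 * n + (9 * p.length + 8)) :=
    pb_mul (pb_const 3) (pb_add (pb_mul (pb_const 8) pb_id) (pb_const _))
  refine ⟨lft false (Uni.pushM p ver), c, fun x => ?_⟩
  have h1 := hc x.length
  simp only at h1
  have key : ∀ (w : List Bool) (t : ℕ), 8 * x.length + (9 * p.length + 7) ≤ t →
      (AcceptsIn (join O T) (lft false (Uni.pushM p ver)) x w (3 * t) ↔
        w.length = (p ++ x).length ∧ ∀ j ≤ (p ++ x).length, O (qstr (p ++ x) w j) = true) := by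
    intro w t ht
    rw [accepts_lft]
    obtain ⟨t', rfl⟩ : ∃ t', t = t' + p.length := ⟨t - p.length, by omega⟩
    rw [Uni.accepts_pushM]
    refine accepts_ver O _ _ _ ?_
    rw [List.length_append]
    omega
  constructor
  · rintro ⟨w, hw, hj⟩
    refine ⟨w, ?_, ?_⟩
    · rw [hw, List.length_append]
      omega
    · have h2 := (key w (8 * x.length + (9 * p.length + 7)) le_rfl).2 ⟨hw, hj⟩
      obtain ⟨d, hd⟩ : ∃ d, poly c x.length = 3 * (8 * x.length + (9 * p.length + 7)) + d :=
        ⟨poly c x.length - 3 * (8 * x.length + (9 * p.length + 7)), by omega⟩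
      rw [hd]
      exact accepts_mono h2 (Nat.le_add_right _ _)
  · rintro ⟨w, -, h3⟩
    have h4 : poly c x.length ≤ 3 * (poly c x.length / 3 + 1) := by omega
    obtain ⟨h5, h6⟩ := (key w (poly c x.length / 3 + 1) (by omega)).1 (accepts_mono h3 h4)
    exact ⟨w, h5, h6⟩

theorem inNP_inp_join (O T : Oracle) (a b : ℕ) (s : Bool) :
    InNP (join O T) {x | Uni.inp a b s x ∈ Test O} := by
  have h := inNP_join O T (List.replicate a true ++ false :: (List.replicate b true ++ [false, s]))
  have h1 : ∀ x, (List.replicate a true ++ false :: (List.replicate b true ++ [false, s])) ++ x =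
      Uni.inp a b s x := by
    intro x
    simp [Uni.inp]
  simpa only [h1] using h

/-- the run of the machine with the final question -/
theorem run_fin (O S : Oracle) : ∀ (t : ℕ) (c : Cfg M),
    M.code ((step O M)^[t] c).state = .halt true → ∀ t', 3 * t + 2 ≤ t' →
    (lft true M).code ((step (join O S) (lft true M))^[t'] (cf 0 c.state (ss c.stack))).state =
      .halt (S (((step O M)^[t] c).stack 0)) := by
  have base : ∀ (c : Cfg M), M.code c.state = .halt true → ∀ t', 2 ≤ t' →
      (lft true M).code ((step (join O S) (lft true M))^[t'] (cf 0 c.state (ss c.stack))).state =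
        .halt (S (c.stack 0)) := by
    rintro ⟨s, f⟩ hc t' ht'
    have hc' : M.code s = .halt true := hc
    have h0 : codeP true M (0, s) = .push (Fin.castSucc 0) true ((eS M).symm (6, s)) := by
      simp only [codeP, hc', Bool.and_self, if_true]
    obtain ⟨t'', rfl⟩ : ∃ t'', t' = t'' + 1 + 1 := ⟨t' - 2, by omega⟩
    rw [Function.iterate_succ_apply, Function.iterate_succ_apply]
    simp only
    rw [st_push _ h0]
    have h6 := st_query (e := true) (join O S) (t := 6) (t' := 7) (t'' := 8) (s := s) (n := s)
      (n' := s) (i := 0) rfl (Function.update f 0 (true :: f 0))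
    rw [Function.update_self] at h6
    have hj : join O S (true :: f 0) = S (f 0) := rfl
    rw [hj] at h6
    rw [h6]
    have h7 : codeP true M (7, s) = .halt false := rfl
    have h8 : codeP true M (8, s) = .halt true := rfl
    cases hS : S (f 0)
    · rw [if_neg (by simp), Function.iterate_fixed (st_halt (join O S) h7 _)]
      exact (code_cf 7 s).trans h7
    · rw [if_pos rfl, Function.iterate_fixed (st_halt (join O S) h8 _)]
      exact (code_cf 8 s).trans h8
  intro t
  induction t with
  | zero =>
    intro c hc t' ht'
    exact base c hc t' (by omega)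
  | succ t ih =>
    intro c hc t' ht'
    by_cases h : M.code c.state = .halt true
    · have h1 : step O M c = c := by
        unfold step
        rw [h]
      rw [Function.iterate_fixed h1]
      exact base c h t' (by omega)
    · obtain ⟨t'', rfl⟩ : ∃ t'', t' = t'' + 3 := ⟨t' - 3, by omega⟩
      rw [Function.iterate_add_apply, three _ _ _ (Or.inr h), Function.iterate_succ_apply]
      rw [Function.iterate_succ_apply] at hc
      exact ih _ hc t'' (by omega)

/-- many-one reducible pairs are Turing reducible -/
theorem treduces_of_mreduces {O : Oracle} {C D A B : Set (List Bool)}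
    (h : MReduces poly O C D A B) : TReduces O C D A B := by
  obtain ⟨M, c, h⟩ := h
  choose y hy using h
  intro S hS
  obtain ⟨c', hc'⟩ : PB fun n => 3 * poly c n + 2 :=
    pb_add (pb_mul (pb_const 3) ⟨c, fun n => le_rfl⟩) (pb_const 2)
  refine ⟨{x | S (y x) = true}, fun x hx => hS.1 _ ((hy x).2.1 hx), ?_, lft true M, c',
    fun x => ?_⟩
  · refine Set.disjoint_left.2 fun x hx h1 => ?_
    rw [Set.mem_ofPred_eq, hS.2 _ ((hy x).2.2 hx)] at h1
    exact absurd h1 (by decide)
  · obtain ⟨h1, h2⟩ := (hy x).1
    have h3 := run_fin O S _ _ h1 (poly c' x.length) (hc' x.length)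
    rw [h2] at h3
    unfold AcceptsIn
    rw [start_lft, h3]
    constructor
    · intro h4
      rw [show S (y x) = true from h4]
    · intro h4
      exact Instr.halt.inj h4

end ESY.Alg
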