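import Pool.Agent.Lib.MP_b9add9_lc.Alg.Defs
import Pool.Agent.Lib.MP_80aaf5_lc.Few2.Generic

/-!
# Linearity of the algebraic extension
-/

namespace ESY

open Polynomial

theorem ml_congr {R : Type} [CommRing R] : ∀ (l : List R) (A A' : Oracle),
    (∀ s : List Bool, s.length = l.length → A s = A' s) → ml A l = ml A' l
  | [], A, A', h => by rw [ml, ml, h [] rfl]
  | r :: l, A, A', h => by
    rw [ml, ml, ml_congr l (fun s => A (false :: s)) (fun s => A' (false :: s)) fun s hs =>
        h _ (by rw [List.length_cons, List.length_cons, hs]),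
      ml_congr l (fun s => A (true :: s)) (fun s => A' (true :: s)) fun s hs =>
        h _ (by rw [List.length_cons, List.length_cons, hs])]

theorem ml_add {R : Type} [CommRing R] : ∀ (l : List R) (A A₀ A₁ A₂ : Oracle),
    (∀ s : List Bool, (A s).toNat = (A₀ s).toNat + (A₁ s).toNat + (A₂ s).toNat) →
    ml A l = ml A₀ l + ml A₁ l + ml A₂ l
  | [], A, A₀, A₁, A₂, h => by
    rw [ml, ml, ml, ml, h]
    push_cast
    rfl
  | r :: l, A, A₀, A₁, A₂, h => by
    rw [ml, ml, ml, ml, ml_add l _ _ _ _ fun s => h (false :: s),
      ml_add l _ _ _ _ fun s => h (true :: s)]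
    ring

/-- The multilinear extension agrees with the oracle at the points with coordinates `0`, `1`. -/
theorem ml_bool {R : Type} [CommRing R] : ∀ (s : List Bool) (A : Oracle),
    ml A (s.map fun b => ((b.toNat : ℕ) : R)) = ((A s).toNat : R)
  | [], A => rfl
  | b :: s, A => by
    rw [List.map_cons, ml, ml_bool s, ml_bool s]
    cases b <;> simp

theorem nums_length : ∀ s : List Bool, (nums s).length ≤ s.length
  | [] => le_rfl
  | [true] => by simp [nums]
  | false :: s => by
    rw [nums, List.length_cons, List.length_cons]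
    exact Nat.succ_le_succ (nums_length s)
  | true :: b :: s => by
    have h := nums_length s
    rw [nums]
    rcases hs : nums s with _ | ⟨a, l⟩
    · simp
    · rw [hs] at h
      simp only [List.length_cons] at h ⊢
      omega

theorem nums_lt : ∀ (s : List Bool), ∀ a ∈ nums s, a < 2 ^ s.length
  | [], a, h => absurd h (by simp [nums])
  | [true], a, h => absurd h (by simp [nums])
  | false :: s, a, h => by
    rw [nums] at h
    rcases List.mem_cons.1 h with rfl | h
    · exact Nat.two_pow_pos _
    · refine (nums_lt s a h).trans_le (Nat.pow_le_pow_right (by norm_num) ?_)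
      rw [List.length_cons]
      omega
  | true :: b :: s, a, h => by
    have hI := nums_lt s
    rw [nums] at h
    have hlen : (true :: b :: s).length = s.length + 2 := rfl
    rw [hlen]
    rcases hs : nums s with _ | ⟨c, l⟩
    · rw [hs] at h
      exact absurd h (by simp)
    · rw [hs] at h hI
      rcases List.mem_cons.1 h with rfl | h
      · have h1 := hI c List.mem_cons_self
        have h2 : b.toNat ≤ 1 := by cases b <;> simp
        rw [pow_add]
        omega
      · refine (hI a (List.mem_cons_of_mem _ h)).trans_le (Nat.pow_le_pow_right (by norm_num) ?_)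
        omega

/-- `ext A s` only depends on the values of `A` at strings of length at most `s.length` -/
theorem ext_congr {A A' : Oracle} {s : List Bool} (h : Few.Agree s.length A A') :
    ext A s = ext A' s := by
  unfold ext
  have h0 := nums_length s
  generalize nums s = ns at h0 ⊢
  rcases ns with _ | ⟨q, _ | ⟨k, _ | ⟨l, _ | ⟨j, r⟩⟩⟩⟩
  · rfl
  · rfl
  · rfl
  · rfl
  · simp only [List.length_cons] at h0
    simp only
    rw [ml_congr _ A A']
    intro t ht
    rw [List.length_map, List.length_range] at ht
    refine h t ?_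
    have := Nat.div_le_self r.length k
    omega

/-- `alg A s` only depends on the values of `A` at strings of length at most `s.length` -/
theorem alg_congr {A A' : Oracle} {s : List Bool} (h : Few.Agree s.length A A') :
    alg A s = alg A' s := by
  match s, h with
  | [], _ => rfl
  | false :: s, h => exact h s (by rw [List.length_cons]; omega)
  | true :: s, h => exact ext_congr (h.mono (by rw [List.length_cons]; omega))

/-- the messages -/
theorem ext_msg (s : List Bool) : ∃ q : ℕ, q + 1 ≤ 2 ^ s.length ∧
    ∃ (φ : Oracle → ZMod (q + 1)) (F : ZMod (q + 1) → Bool), (∀ A, ext A s = F (φ A)) ∧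
      ∀ A A₀ A₁ A₂ : Oracle,
        (∀ t : List Bool, (A t).toNat = (A₀ t).toNat + (A₁ t).toNat + (A₂ t).toNat) →
        φ A = φ A₀ + φ A₁ + φ A₂ := by
  have h0 := nums_lt s
  unfold ext
  generalize nums s = ns at h0 ⊢
  rcases ns with _ | ⟨q, _ | ⟨k, _ | ⟨l, _ | ⟨j, r⟩⟩⟩⟩
  · exact ⟨0, Nat.one_le_two_pow, fun _ => 0, fun _ => false, fun _ => rfl, fun _ _ _ _ _ => by simp⟩
  · exact ⟨0, Nat.one_le_two_pow, fun _ => 0, fun _ => false, fun _ => rfl, fun _ _ _ _ _ => by simp⟩
  · exact ⟨0, Nat.one_le_two_pow, fun _ => 0, fun _ => false, fun _ => rfl, fun _ _ _ _ _ => by simp⟩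
  · exact ⟨0, Nat.one_le_two_pow, fun _ => 0, fun _ => false, fun _ => rfl, fun _ _ _ _ _ => by simp⟩
  · refine ⟨q, h0 q (by simp), fun A => (ml A ((List.range (r.length / k - 1)).map
      fun i => pol q ((r.drop (k * (i + 1))).take k)) %ₘ (X ^ k + pol q (r.take k))).coeff l,
      fun z => z.val.testBit j, fun A => rfl, fun A A₀ A₁ A₂ h => ?_⟩
    simp only
    rw [ml_add _ A A₀ A₁ A₂ h, Polynomial.add_modByMonic, Polynomial.add_modByMonic, coeff_add,
      coeff_add]

end ESY
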