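import Pool.Agent.Lib.MP_b9add9_lc.Alg.Acc
import Pool.Agent.Lib.MP_b9add9_lc.Alg.Lin

/-!
# The planted oracles
-/

namespace ESY.Alg

open ESY ESY.Few

/-- The frame: two different strings of length `n ≥ 2` and an oracle. -/
structure Frame : Type where
  n : ℕ
  X : Bool → List Bool
  O : Oracle
  hX : ∀ σ, (X σ).length = n
  hXi : X false ≠ X true
  hn : 2 ≤ n

namespace Frame

variable (f : Frame)

/-- the words -/
abbrev W : Type := List.Vector Bool f.n

theorem w_len (w : f.W) (σ : Bool) : w.1.length = (f.X σ).length := w.2.trans (f.hX σ).symm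

/-- the string `r` is the string number `j` of the input `X σ` with the witness `w` -/
def At (σ : Bool) (w : f.W) (j : ℕ) (r : List Bool) : Prop := r = qstr (f.X σ) w.1 j

variable {f}

theorem X_inj {σ σ' : Bool} (h : f.X σ = f.X σ') : σ = σ' := by
  have h0 := f.hXi
  cases σ <;> cases σ'
  · rfl
  · exact absurd h h0
  · exact absurd h.symm h0
  · rfl

theorem at_inj {σ σ' : Bool} {w w' : f.W} {j j' : ℕ} {r : List Bool} (h : f.At σ w j r)
    (h' : f.At σ' w' j' r) : σ = σ' ∧ w = w' ∧ j = j' := by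
  have h1 : qstr (f.X σ) w.1 j = qstr (f.X σ') w'.1 j' := by
    rw [← h]
    exact h'
  obtain ⟨h2, h3, h4⟩ := qstr_inj (f.w_len w σ) ((f.hX σ').trans (f.hX σ).symm)
    (w'.2.trans (f.hX σ).symm) h1
  exact ⟨X_inj h2, Subtype.ext h3, h4⟩

theorem at_len {σ : Bool} {w : f.W} {j : ℕ} {r : List Bool} (h : f.At σ w j r) :
    r.length = j + 1 + 2 * f.n := by
  rw [h, qstr_length _ _ _ (f.w_len w σ), f.hX]

theorem at_cons {σ : Bool} {w : f.W} {j : ℕ} {r : List Bool} (h : f.At σ w j r) :
    ∃ r', r = true :: r' := ⟨_, h.trans (qstr_cons _ _ _)⟩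

variable (f)

open Classical in
/-- the part that does not depend on the plants -/
noncomputable def A0 : Oracle := fun r =>
  decide (¬ ∃ σ w j, j ≤ 1 ∧ f.At σ w j r) && (decide (∃ σ w j, j ≤ f.n ∧ f.At σ w j r) || f.O r)

open Classical in
/-- the first plant -/
noncomputable def A1 (p : Bool × f.W → Bool) : Oracle :=
  fun r => decide (∃ σ w, f.At σ w 0 r ∧ p (σ, w) = true)

open Classical in
/-- the second plant -/
noncomputable def A2 (p : Bool × f.W → Bool) : Oracle :=
  fun r => decide (∃ σ w, f.At σ w 1 r ∧ p (σ, w) = true)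

/-- the planted oracle -/
noncomputable def Wd (p p' : Bool × f.W → Bool) : Oracle :=
  fun r => f.A0 r || f.A1 p r || f.A2 p' r

variable {f}

theorem wd0 (p p' : Bool × f.W → Bool) {σ : Bool} {w : f.W} {r : List Bool} (h : f.At σ w 0 r) :
    f.Wd p p' r = p (σ, w) := by
  classical
  have h0 : f.A0 r = false := by
    have : ∃ σ w j, j ≤ 1 ∧ f.At σ w j r := ⟨σ, w, 0, by omega, h⟩
    simp [A0, this]
  have h2 : f.A2 p' r = false := by
    rw [A2, decide_eq_false_iff_not]
    rintro ⟨σ', w', h', -⟩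
    exact absurd (at_inj h h').2.2 (by decide)
  have h1 : f.A1 p r = p (σ, w) := by
    rw [Bool.eq_iff_iff, A1, decide_eq_true_eq]
    constructor
    · rintro ⟨σ', w', h', h3⟩
      obtain ⟨rfl, rfl, -⟩ := at_inj h h'
      exact h3
    · exact fun h3 => ⟨σ, w, h, h3⟩
  rw [Wd, h0, h1, h2]
  simp

theorem wd1 (p p' : Bool × f.W → Bool) {σ : Bool} {w : f.W} {r : List Bool} (h : f.At σ w 1 r) :
    f.Wd p p' r = p' (σ, w) := by
  classical
  have h0 : f.A0 r = false := by
    have : ∃ σ w j, j ≤ 1 ∧ f.At σ w j r := ⟨σ, w, 1, le_rfl, h⟩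
    simp [A0, this]
  have h1 : f.A1 p r = false := by
    rw [A1, decide_eq_false_iff_not]
    rintro ⟨σ', w', h', -⟩
    exact absurd (at_inj h h').2.2 (by decide)
  have h2 : f.A2 p' r = p' (σ, w) := by
    rw [Bool.eq_iff_iff, A2, decide_eq_true_eq]
    constructor
    · rintro ⟨σ', w', h', h3⟩
      obtain ⟨rfl, rfl, -⟩ := at_inj h h'
      exact h3
    · exact fun h3 => ⟨σ, w, h, h3⟩
  rw [Wd, h0, h1, h2]
  simp

theorem wdj (p p' : Bool × f.W → Bool) {σ : Bool} {w : f.W} {j : ℕ} {r : List Bool}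
    (hj : 2 ≤ j) (hjn : j ≤ f.n) (h : f.At σ w j r) : f.Wd p p' r = true := by
  have h0 : f.A0 r = true := by
    have h1 : ¬ ∃ σ w j, j ≤ 1 ∧ f.At σ w j r := by
      rintro ⟨σ', w', j', hj', h'⟩
      have := (at_inj h h').2.2
      omega
    have h2 : ∃ σ w j, j ≤ f.n ∧ f.At σ w j r := ⟨σ, w, j, hjn, h⟩
    simp [A0, h1, h2]
  rw [Wd, h0]
  simp

theorem wd_old (p p' : Bool × f.W → Bool) {r : List Bool}
    (h : ¬ ∃ σ w j, j ≤ f.n ∧ f.At σ w j r) : f.Wd p p' r = f.O r := by
  have hn := f.hn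
  have h0 : ¬ ∃ σ w j, j ≤ 1 ∧ f.At σ w j r := by
    rintro ⟨σ, w, j, hj, h'⟩
    exact h ⟨σ, w, j, by omega, h'⟩
  have h1 : f.A1 p r = false := by
    rw [A1, decide_eq_false_iff_not]
    rintro ⟨σ', w', h', -⟩
    exact h ⟨σ', w', 0, by omega, h'⟩
  have h2 : f.A2 p' r = false := by
    rw [A2, decide_eq_false_iff_not]
    rintro ⟨σ', w', h', -⟩
    exact h ⟨σ', w', 1, by omega, h'⟩
  rw [Wd, h1, h2]
  simp [A0, h, h0]

theorem wd_short (p p' : Bool × f.W → Bool) {r : List Bool} (h : r.length ≤ 2 * f.n) :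
    f.Wd p p' r = f.O r := by
  refine wd_old p p' ?_
  rintro ⟨σ, w, j, -, h'⟩
  have := at_len h'
  omega

theorem wd_long (p p' : Bool × f.W → Bool) {r : List Bool} (h : 3 * f.n + 1 < r.length) :
    f.Wd p p' r = f.O r := by
  refine wd_old p p' ?_
  rintro ⟨σ, w, j, hj, h'⟩
  have := at_len h'
  omega

theorem wd_split (p p' : Bool × f.W → Bool) (r : List Bool) :
    (f.Wd p p' r).toNat = (f.A0 r).toNat + (f.A1 p r).toNat + (f.A2 p' r).toNat := by
  classical
  by_cases h1 : f.A1 p r = true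
  · obtain ⟨σ, w, h, hp⟩ := of_decide_eq_true h1
    have h0 : f.A0 r = false := by
      have : ∃ σ w j, j ≤ 1 ∧ f.At σ w j r := ⟨σ, w, 0, by omega, h⟩
      simp [A0, this]
    have h2 : f.A2 p' r = false := by
      rw [A2, decide_eq_false_iff_not]
      rintro ⟨σ', w', h', -⟩
      exact absurd (at_inj h h').2.2 (by decide)
    rw [Wd, h0, h1, h2]
    rfl
  · rw [Bool.not_eq_true] at h1
    by_cases h2 : f.A2 p' r = true
    · obtain ⟨σ, w, h, hp⟩ := of_decide_eq_true h2
      have h0 : f.A0 r = false := by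
        have : ∃ σ w j, j ≤ 1 ∧ f.At σ w j r := ⟨σ, w, 1, le_rfl, h⟩
        simp [A0, this]
      rw [Wd, h0, h1, h2]
      rfl
    · rw [Bool.not_eq_true] at h2
      rw [Wd, h1, h2]
      cases f.A0 r <;> rfl

/-- the messages for a query to the algebraic extension -/
theorem msg (s : List Bool) : Msg (2 ^ s.length) fun p p' => ext (f.Wd p p') s := by
  obtain ⟨q, hq, φ, F, h1, h2⟩ := ext_msg s
  refine ⟨ZMod (q + 1), inferInstance, fun p => φ f.A0 + φ (f.A1 p), fun p' => φ (f.A2 p'),
    fun a b => F (a + b), ?_, fun p p' => ?_⟩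
  · rw [ZMod.card]
    exact hq
  · simp only
    rw [h1, h2 _ _ _ _ (wd_split p p')]

theorem msg_le {s : List Bool} {L : ℕ} (h : s.length ≤ L) :
    Msg (2 ^ L) fun p p' => alg (f.Wd p p') s := by
  match s, h with
  | [], _ => exact ⟨Unit, inferInstance, fun _ => (), fun _ => (), fun _ _ => false, by
      rw [Fintype.card_unit]
      exact Nat.one_le_two_pow, fun p p' => rfl⟩
  | false :: r, h =>
    rw [List.length_cons] at h
    refine ⟨Bool, inferInstance, fun p => f.A0 r || f.A1 p r, fun p' => f.A2 p' r,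
      fun x y => x || y, ?_, fun p p' => rfl⟩
    rw [Fintype.card_bool]
    calc 2 = 2 ^ 1 := rfl
      _ ≤ 2 ^ L := Nat.pow_le_pow_right (by norm_num) (by omega)
  | true :: r, h =>
    rw [List.length_cons] at h
    obtain ⟨ι, hι, a, b, F, h1, h2⟩ := msg (f := f) r
    exact ⟨ι, hι, a, b, F, h1.trans (Nat.pow_le_pow_right (by norm_num) (by omega)), h2⟩

/-- the test language at the inputs `X σ` -/
theorem test_X (p p' : Bool × f.W → Bool) (σ : Bool) :
    f.X σ ∈ Test (f.Wd p p') ↔ ∃ w : f.W, p (σ, w) = true ∧ p' (σ, w) = true := by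
  have hn := f.hn
  constructor
  · rintro ⟨w, hw, hj⟩
    rw [f.hX] at hw hj
    refine ⟨⟨w, hw⟩, ?_, ?_⟩
    · rw [← wd0 p p' (σ := σ) (w := ⟨w, hw⟩) rfl]
      exact hj 0 (by omega)
    · rw [← wd1 p p' (σ := σ) (w := ⟨w, hw⟩) rfl]
      exact hj 1 (by omega)
  · rintro ⟨w, h1, h2⟩
    refine ⟨w.1, f.w_len w σ, fun j hj => ?_⟩
    rw [f.hX] at hj
    match j, hj with
    | 0, _ => exact (wd0 p p' (w := w) rfl).trans h1
    | 1, _ => exact (wd1 p p' (w := w) rfl).trans h2
    | j + 2, hj => exact wdj p p' (by omega) hj (w := w) rfl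

/-- the test language at other inputs -/
theorem test_old {N : ℕ} (hO : ∀ r : List Bool, N ≤ r.length → f.O (true :: r) = false)
    (hN : N ≤ f.n) (p p' : Bool × f.W → Bool) {z : List Bool} (h : z ∈ Test (f.Wd p p')) :
    (z ∈ Test f.O ∧ z.length < f.n) ∨ ∃ σ, z = f.X σ := by
  have hn := f.hn
  by_cases h0 : ∃ σ, z = f.X σ
  · exact Or.inr h0
  · left
    obtain ⟨w, hw, hj⟩ := h
    have hno : z.length ≤ f.n → ∀ j, 2 * z.length + j ≤ 3 * f.n → ∀ σ w' j',
        f.At σ w' j' (qstr z w j) → z.length < f.n := by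
      intro hle j _ σ w' j' hat
      rcases Nat.lt_or_ge z.length f.n with h1 | h1
      · exact h1
      · exfalso
        have hzn : z.length = f.n := le_antisymm hle h1
        have h2 : qstr z w j = qstr (f.X σ) w'.1 j' := hat
        obtain ⟨h3, -, -⟩ := qstr_inj hw ((f.hX σ).trans hzn.symm) (w'.2.trans hzn.symm) h2
        exact h0 ⟨σ, h3⟩
    have hfree : ∀ j ≤ z.length, (¬ ∃ σ w' j', j' ≤ f.n ∧ f.At σ w' j' (qstr z w j)) →
        2 * z.length + j < N := by
      intro j hjn h2
      have h1 := hj j hjn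
      rw [wd_old p p' h2] at h1
      by_contra hcon
      have h3 := qstr_length z w j hw
      rw [qstr_cons] at h1 h3
      rw [hO _ (by rw [List.length_cons] at h3; omega)] at h1
      exact absurd h1 (by decide)
    -- the length of `z`
    have hlt : z.length < f.n := by
      rcases Nat.lt_trichotomy z.length f.n with h1 | h1 | h1
      · exact h1
      · have h2 := hfree 0 (Nat.zero_le _) (by
          rintro ⟨σ, w', j', -, hat⟩
          have := hno h1.le 0 (by omega) σ w' j' hat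
          omega)
        omega
      · have h2 := hfree z.length le_rfl (by
          rintro ⟨σ, w', j', hj', hat⟩
          have h3 := at_len hat
          rw [qstr_length z w _ hw] at h3
          omega)
        omega
    have hz : 2 * z.length < N := by
      have h2 := hfree 0 (Nat.zero_le _) (by
        rintro ⟨σ, w', j', -, hat⟩
        have h3 := at_len hat
        rw [qstr_length z w _ hw] at h3
        omega)
      omega
    refine ⟨⟨w, hw, fun j hjn => ?_⟩, hlt⟩
    rw [← wd_old p p' (r := qstr z w j) ?_]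
    · exact hj j hjn
    · rintro ⟨σ, w', j', -, hat⟩
      have h3 := at_len hat
      rw [qstr_length z w _ hw] at h3
      omega

end Frame

end ESY.Alg
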