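import Pool.Agent.Lib.MP_b9add9_lc.Alg.Dense
import Pool.Agent.Lib.MP_b9add9_lc.Alg.Sim
import Pool.Agent.Lib.MP_80aaf5_lc.Few2.Final

/-!
# The final argument
-/

namespace ESY.Alg

open ESY ESY.Few Set
open ESY.Uni (inp inNP_inp)
open ESY.Few2 (inTime_mono inNTime_mono inseparable_mono)

variable (X₀ : Oracle)

/-- Relative to the algebraic oracle over some oracle over `X₀` no disjoint `NP`-pair is hard for
the disjoint `NP`-pairs of the oracle itself. -/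
theorem main1 (T : ℕ → ℕ → ℕ) (hT : Subexponential T) : ∃ Y : Oracle, ∀ U V : Set (List Bool),
    NPPair (alg (join X₀ Y)) U V → ∃ S C D, Separator U V S ∧ NPPair (join X₀ Y) C D ∧
      NPPair (alg (join X₀ Y)) C D ∧ Inseparable T (alg (join X₀ Y)) S C D ∧
      ¬ InNTime T (join (alg (join X₀ Y)) S) Cᶜ := by
  obtain ⟨y, hy, hG⟩ := exists_generic X₀ T hT
  refine ⟨fun s => y (.inl s), fun A B hAB => ?_⟩
  obtain ⟨hA, hB, hdisj⟩ := hAB
  obtain ⟨a, ha⟩ := (inNP_iff _ _).1 hA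
  obtain ⟨b, hb⟩ := (inNP_iff _ _).1 hB
  have hdis : ¬ ∃ q, Tr (EE X₀ y) a q ∧ Tr (EE X₀ y) b q := by
    rintro ⟨q, h1, h2⟩
    exact Set.disjoint_left.1 hdisj ((ha q).2 h1) ((hb q).2 h2)
  have hK : y ∈ KK X₀ := (isClosed_KK X₀).closure_subset_iff.2 (fun y hy => hy.1) hy
  have hreq : ∀ {W : Par → List Bool → Prop}, y ∈ Req X₀ a b W → ∃ x, ¬ W y x := by
    rintro W (h | h)
    · exact absurd h hdis
    · obtain ⟨x, hx⟩ := mem_iUnion.1 h
      exact ⟨x, hx⟩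
  have hCD : Disjoint {x | inp a b false x ∈ Test (OO X₀ y)}
      {x | inp a b true x ∈ Test (OO X₀ y)} := by
    refine Set.disjoint_left.2 fun x h1 h2 => ?_
    obtain ⟨q, -, h3⟩ := hK a b x h1 h2
    exact hdis ⟨q, h3⟩
  refine ⟨sep X₀ y a b, {x | inp a b false x ∈ Test (OO X₀ y)},
    {x | inp a b true x ∈ Test (OO X₀ y)},
    ⟨fun x hx => if_pos ((ha x).1 hx), fun x hx => ?_⟩,
    ⟨inNP_inp _ _ _ _, inNP_inp _ _ _ _, hCD⟩,
    ⟨inNP_inp_join _ _ _ _ _, inNP_inp_join _ _ _ _ _, hCD⟩, ?_, ?_⟩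
  · unfold sep
    rw [if_neg fun h => hdis ⟨x, h, (hb x).1 hx⟩]
    exact if_pos ((hb x).1 hx)
  · intro E hCE hDE
    constructor
    · rintro ⟨M, c, h⟩
      obtain ⟨x, hx⟩ := hreq (hG a b M c M c).1
      exact hx ⟨fun h1 => (h x).1 (hCE h1),
        fun h1 h2 => Set.disjoint_left.1 hDE h1 ((h x).2 h2)⟩
    · rintro ⟨⟨M, c, h⟩, M', c', h'⟩
      obtain ⟨x, hx⟩ := hreq (hG a b M c M' c').2.2
      refine hx ⟨?_, fun h1 h2 => (h' x).2 h2 (hCE h1),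
        fun h1 h2 => Set.disjoint_left.1 hDE h1 ((h x).2 h2)⟩
      by_cases hxE : x ∈ E
      · exact Or.inl ((h x).1 hxE)
      · exact Or.inr ((h' x).1 hxE)
  · rintro ⟨M, c, h⟩
    obtain ⟨x, hx⟩ := hreq (hG a b M c M c).2.1
    exact hx (h x)

/-- The final theorem. -/
theorem main (T : ℕ → ℕ → ℕ) (hT : Subexponential T) : ∃ Y : Oracle,
    ESYRel (alg (join X₀ Y)) ∧ (¬ ∃ U V, MComplete (alg (join X₀ Y)) U V) ∧
      (¬ ∃ U V, TComplete (alg (join X₀ Y)) U V) ∧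
      ∀ U V, NPPair (alg (join X₀ Y)) U V → ∃ S C D, Separator U V S ∧
        NPPair (join X₀ Y) C D ∧ NPPair (alg (join X₀ Y)) C D ∧
        Inseparable T (alg (join X₀ Y)) S C D ∧ ¬ InNTime T (join (alg (join X₀ Y)) S) Cᶜ := by
  let T' : ℕ → ℕ → ℕ := fun c => if c % 2 = 0 then T (c / 2) else poly (c / 2)
  have hT' : Subexponential T' := by
    intro c k
    by_cases h : c % 2 = 0
    · simpa only [T', h, if_true] using hT (c / 2) k
    · simpa only [T', h, if_false] using subexponential_poly (c / 2) k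
  have h0 : ∀ c, ∃ c', T' c' = T c := fun c => ⟨2 * c, by simp [T']⟩
  have h1 : ∀ c, ∃ c', T' c' = poly c := by
    intro c
    refine ⟨2 * c + 1, ?_⟩
    have h2 : (2 * c + 1) % 2 ≠ 0 := by omega
    have h3 : (2 * c + 1) / 2 = c := by omega
    simp only [T', h2, if_false, h3]
  obtain ⟨Y, hY⟩ := main1 X₀ T' hT'
  have hTC : ¬ ∃ U V, TComplete (alg (join X₀ Y)) U V := by
    rintro ⟨U, V, hUV, hc⟩
    obtain ⟨S, C, D, hS, -, hCD, hI, -⟩ := hY U V hUV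
    obtain ⟨E, hCE, hDE, hE⟩ := hc C D hCD S hS
    exact (inseparable_mono h1 hI E hCE hDE).1 hE
  refine ⟨Y, ?_, ?_, hTC, fun U V hUV => ?_⟩
  · rintro ⟨U, V, ⟨-, -, hU, hV, hdis⟩, hhard⟩
    obtain ⟨S, C, D, hS, -, hCD, hI, -⟩ := hY U V ⟨hU, hV, hdis⟩
    exact (inseparable_mono h1 hI C subset_rfl hCD.2.2.symm).1 (hhard S hS C hCD.1)
  · rintro ⟨U, V, hUV, hc⟩
    exact hTC ⟨U, V, hUV, fun C D hCD => treduces_of_mreduces (hc C D hCD)⟩
  · obtain ⟨S, C, D, hS, hCD, hCD', hI, hN⟩ := hY U V hUV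
    exact ⟨S, C, D, hS, hCD, hCD', inseparable_mono h0 hI, fun h => hN (inNTime_mono h0 h)⟩

end ESY.Alg
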