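import Pool.Agent.Lib.MP_b9add9_lc.Alg.Rect
import Pool.Agent.Lib.MP_80aaf5_lc.Few.World

/-!
# Covers of acceptance conditions; the crossing lemma
-/

namespace ESY.Alg

open ESY ESY.Few

/-! ### Words -/

/-- the words of length at most `t` -/
abbrev Wc (t : ℕ) : Type := Fin (t + 1) × (Fin t → Bool)

/-- the word with a given code -/
def wd {t : ℕ} (x : Wc t) : List Bool := (List.ofFn x.2).take x.1

theorem wd_len {t : ℕ} (x : Wc t) : (wd x).length ≤ t := by
  have := x.1.2
  simp only [wd, List.length_take, List.length_ofFn]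
  omega

theorem wd_surj {t : ℕ} {w : List Bool} (h : w.length ≤ t) : ∃ x : Wc t, wd x = w := by
  refine ⟨(⟨w.length, by omega⟩, fun j => w.getD j false), ?_⟩
  refine List.ext_getElem ?_ fun i h1 h2 => ?_
  · simp only [wd, List.length_take, List.length_ofFn]
    omega
  · simp only [wd, List.getElem_take, List.getElem_ofFn]
    exact List.getD_eq_getElem _ _ h2

theorem wc_card (t : ℕ) : Fintype.card (Wc t) ≤ 2 ^ (2 * t) := by
  rw [Fintype.card_prod, Fintype.card_fin, Fintype.card_fun, Fintype.card_fin, Fintype.card_bool]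
  have h : t + 1 ≤ 2 ^ t := Nat.lt_two_pow_self
  calc (t + 1) * 2 ^ t ≤ 2 ^ t * 2 ^ t := Nat.mul_le_mul_right _ h
    _ = 2 ^ (2 * t) := by rw [two_mul, pow_add]

/-! ### Messages -/

variable {α : Type}

/-- `E` is a function of two messages from a set with at most `k` elements -/
def Msg (k : ℕ) (E : α → α → Bool) : Prop :=
  ∃ (ι : Type) (_ : Fintype ι) (f g : α → ι) (F : ι → ι → Bool), Fintype.card ι ≤ k ∧
    ∀ p p', E p p' = F (f p) (g p')

theorem Msg.lab {k : ℕ} {E : α → α → Bool} (h : Msg k E) (c : α → α) :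
    Lab c (k * k) fun v p p' => E p p' = v := by
  obtain ⟨ι, hι, f, g, F, h1, h2⟩ := h
  refine ⟨ι × ι, inferInstance, fun p => (f p, g (c p)), fun x => F x.1 x.2, ?_, ?_⟩
  · rw [Fintype.card_prod]
    exact Nat.mul_le_mul h1 h1
  · intro p p' h
    simp only
    rw [h2, (Prod.mk.inj h).2]

theorem cov_run {K L : ℕ} {E : α → α → Oracle}
    (hE : ∀ s : List Bool, s.length ≤ L → Msg K fun p p' => E p p' s) (hK : 1 ≤ K) (M : Machine) :
    ∀ (t : ℕ) (c : Cfg M) (m : ℕ), (∀ i, (c.stack i).length ≤ m) → m + t ≤ L →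
    Cov ((K * K) ^ t) fun p p' => M.code ((step (E p p') M)^[t] c).state = .halt true := by
  intro t
  induction t with
  | zero =>
    intro c m _ _
    rw [pow_zero]
    exact cov_const (M.code c.state = .halt true)
  | succ t ih =>
    intro c m hm hL
    have hKK : 1 ≤ K * K := Nat.mul_pos hK hK
    have hstep : ∀ O : Oracle, ∀ i, ((step O M c).stack i).length ≤ m + 1 :=
      fun O => step_len O M c m hm
    by_cases hq : asked1 M c = []
    · have h1 : ∀ p p', step (E p p') M c = step (fun _ => false) M c :=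
        fun p p' => step_congr fun s hs => absurd hs (by rw [hq]; simp)
      refine (cov_congr (ih (step (fun _ => false) M c) (m + 1) (hstep _) (by omega))
        fun p p' => ?_).mono (Nat.pow_le_pow_right hKK (Nat.le_succ t))
      rw [Function.iterate_succ_apply, h1]
    · obtain ⟨i, a, b, hi⟩ : ∃ i a b, M.code c.state = .query i a b := by
        unfold asked1 at hq
        cases hcode : M.code c.state with
        | push _ _ _ => rw [hcode] at hq; exact absurd rfl hq
        | pop _ _ _ _ => rw [hcode] at hq; exact absurd rfl hq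
        | halt _ => rw [hcode] at hq; exact absurd rfl hq
        | query i a b => exact ⟨i, a, b, rfl⟩
      have hs : (c.stack i).length ≤ L := by
        have := hm i
        omega
      obtain ⟨ι, hι, f, g, F, h1, h2⟩ := hE _ hs
      have h3 : ∀ (O O' : Oracle), O' (c.stack i) = O (c.stack i) → step O' M c = step O M c := by
        intro O O' h
        refine step_congr fun s hs' => ?_
        unfold asked1 at hs'
        rw [hi] at hs'
        simp only [List.mem_singleton] at hs'
        rw [hs', h]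
      have hcard : Fintype.card (ι × ι) ≤ K * K := by
        rw [Fintype.card_prod]
        exact Nat.mul_le_mul h1 h1
      rw [pow_succ']
      refine cov_union (κ := ι × ι) hcard (fun x p => f p = x.1) (fun x p' => g p' = x.2)
        (fun x => ih (step (fun _ => F x.1 x.2) M c) (m + 1) (hstep _) (by omega)) fun p p' => ?_
      rw [Function.iterate_succ_apply]
      constructor
      · intro h
        refine ⟨(f p, g p'), rfl, rfl, ?_⟩
        rwa [h3 (E p p') (fun _ => F (f p) (g p')) (h2 p p').symm]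
      · rintro ⟨x, hx1, hx2, h⟩
        rw [h3 (fun _ => F x.1 x.2) (E p p') ((h2 p p').trans (by rw [hx1, hx2]))]
        exact h

theorem cov_tr {K L : ℕ} {E : α → α → Oracle}
    (hE : ∀ s : List Bool, s.length ≤ L → Msg K fun p p' => E p p' s) (hK : 1 ≤ K) (a : ℕ)
    (q : List Bool) (hL : 2 * (stm a q).length ≤ L) :
    Cov (2 ^ (2 * (stm a q).length) * (K * K) ^ (stm a q).length)
      fun p p' => Tr (E p p') a q := by
  have h1 := tb_lt_stm a q
  have h2 := x_lt_stm a q
  have hKK : 1 ≤ K * K := Nat.mul_pos hK hK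
  have h3 : ∀ x : Wc (tb a q), Cov ((K * K) ^ (stm a q).length)
      fun p p' => AcceptsIn (E p p') (nu a).1 q (wd x) (tb a q) := by
    intro x
    have h4 := wd_len x
    refine (cov_run hE hK (nu a).1 (tb a q) (start (nu a).1 q (wd x)) (stm a q).length
      (start_len _ _ _ _ h2.le (h4.trans h1.le)) (by omega)).mono
        (Nat.pow_le_pow_right hKK h1.le)
  refine cov_union (κ := Wc (tb a q)) ((wc_card _).trans (Nat.pow_le_pow_right (by norm_num)
    (by omega))) (fun _ _ => True) (fun _ _ => True) h3 fun p p' => ?_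
  constructor
  · rintro ⟨w, hw, h⟩
    obtain ⟨x, rfl⟩ := wd_surj hw
    exact ⟨x, trivial, trivial, h⟩
  · rintro ⟨x, -, -, h⟩
    exact ⟨wd x, wd_len x, h⟩

/-! ### Crossing -/

/-- the complement -/
def co {W : Type} (p : Bool × W → Bool) : Bool × W → Bool := fun x => !(p x)

theorem cross {W : Type} [Fintype W] {Λ L : ℕ} {ι : List Bool → Type} [∀ r, Fintype (ι r)]
    (hΛ : ∀ r : List Bool, r.length ≤ L → Fintype.card (ι r) ≤ Λ)
    (g : ∀ r, (Bool × W → Bool) → ι r) (lab : ∀ r, ι r → Bool) (M : Machine) (x w : List Bool)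
    (t : ℕ) (hL : max x.length w.length + t ≤ L) (σ : Bool) (F : Finset (Bool × W → Bool))
    (hF : Λ ^ t * 2 ^ Fintype.card W < F.card) :
    ∃ p ∈ F, ∃ p' ∈ F, (∀ u, p (!σ, u) = p' (!σ, u)) ∧ (∃ u, p (σ, u) = true ∧ p' (σ, u) = false) ∧
      ∀ r ∈ asked (fun r => lab r (g r p)) M t (start M x w), g r p' = g r p := by
  classical
  obtain ⟨F', h1, -, h3, h4⟩ := transcripts hΛ g lab M t (start M x w) (max x.length w.length)
    (start_len M x w _ (le_max_left _ _) (le_max_right _ _)) hL F
    (Finset.card_pos.1 (lt_of_le_of_lt (Nat.zero_le _) hF))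
  have h5 : (Finset.univ : Finset (W → Bool)).card < F'.card := by
    rw [Finset.card_univ, Fintype.card_fun, Fintype.card_bool]
    by_contra hcon
    push Not at hcon
    have := Nat.mul_le_mul_left (Λ ^ t) hcon
    omega
  obtain ⟨p, hp, p', hp', hne, heq⟩ := Finset.exists_ne_map_eq_of_card_lt_of_maps_to h5
    (f := fun (p : Bool × W → Bool) u => p (!σ, u)) (fun _ _ => Finset.mem_coe.2 (Finset.mem_univ _))
  have h6 : ∀ u, p (!σ, u) = p' (!σ, u) := fun u => congrFun heq u
  have h7 : ∃ u, p (σ, u) ≠ p' (σ, u) := by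
    by_contra hcon
    push Not at hcon
    refine hne (funext fun x => ?_)
    obtain ⟨s, u⟩ := x
    by_cases hs : s = σ
    · rw [hs]
      exact hcon u
    · have : s = !σ := by
        revert hs
        cases s <;> cases σ <;> simp
      rw [this]
      exact h6 u
  obtain ⟨u, hu⟩ := h7
  cases hpu : p (σ, u)
  · refine ⟨p', h1 hp', p, h1 hp, fun u => (h6 u).symm, ⟨u, ?_, hpu⟩, fun r hr => h4 p' hp' p hp r hr⟩
    rw [hpu] at hu
    revert hu
    cases p' (σ, u) <;> simp
  · refine ⟨p, h1 hp, p', h1 hp', h6, ⟨u, hpu, ?_⟩, fun r hr => h4 p hp p' hp' r hr⟩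
    rw [hpu] at hu
    revert hu
    cases p' (σ, u) <;> simp

end ESY.Alg
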