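import Pool.Agent.Lib.MP_b9add9_lc.Alg.Tame

/-!
# The crossing argument in a setup
-/

namespace ESY.Alg

open ESY ESY.Few Set
open ESY.Uni (inp inp_length inp_inj)

namespace Setup

variable {X₀ : Oracle} {a b : ℕ} (s : Setup X₀ a b)

/-- logarithm of the number of rectangles of an `NP` question -/
def κ₀ : ℕ := 2 * s.ℓ + 2 * (2 * s.ℓ) * s.ℓ

/-- logarithm of the number of classes of a query -/
def lam : ℕ := (s.κ₀ + 1) ^ 2 + 2 * s.L

theorem cov_q {e : ℕ} {q : List Bool} (h : (stm e q).length ≤ s.ℓ) :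
    Cov (2 ^ s.κ₀) fun p p' => Tr (alg (s.f.Wd p p')) e q := by
  have h1 := cov_tr (K := 2 ^ (2 * s.ℓ)) (L := 2 * s.ℓ) (E := fun p p' => alg (s.f.Wd p p'))
    (fun r hr => Frame.msg_le hr) Nat.one_le_two_pow e q (by omega)
  refine h1.mono ?_
  rw [κ₀, pow_add]
  refine Nat.mul_le_mul (Nat.pow_le_pow_right (by norm_num) (by omega)) ?_
  rw [← pow_add, ← pow_mul]
  refine Nat.pow_le_pow_right (by norm_num) ?_
  calc (2 * s.ℓ + 2 * s.ℓ) * (stm e q).length ≤ (2 * s.ℓ + 2 * s.ℓ) * s.ℓ :=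
        Nat.mul_le_mul_left _ h
    _ = 2 * (2 * s.ℓ) * s.ℓ := by ring

theorem lab_const {α : Type} {c : α → α} {Z : Bool → α → α → Prop} (k : ℕ) (v : Bool)
    (h : ∀ p p', Z v p p') : Lab c (2 ^ k) Z :=
  ⟨Unit, inferInstance, fun _ => (), fun _ => v, by
    rw [Fintype.card_unit]
    exact Nat.one_le_two_pow, fun p p' _ => h p (c p')⟩

theorem lab_q {r : List Bool} (hr : r.length ≤ s.L) :
    Lab co (2 ^ s.lam) fun v p p' => s.ans p p' v r = v := by
  classical
  match r, hr with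
  | [], _ => exact lab_const _ false fun _ _ => rfl
  | false :: r, hr =>
    rw [List.length_cons] at hr
    have h1 := (Frame.msg_le (f := s.f) (s := r) (L := s.L) (by omega)).lab co
    refine Lab.mono h1 ?_
    rw [← pow_add]
    exact Nat.pow_le_pow_right (by norm_num) (by rw [lam]; omega)
  | true :: q, hr =>
    rw [List.length_cons] at hr
    by_cases hq : s.N < q.length
    · have hk : (2 ^ s.κ₀ + 1) ^ Nat.size (2 ^ s.κ₀) ≤ 2 ^ s.lam := by
        have h1 : Nat.size (2 ^ s.κ₀) ≤ s.κ₀ + 1 := Nat.size_le.2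
          (Nat.pow_lt_pow_right (by norm_num) (Nat.lt_succ_self _))
        have h2 : 2 ^ s.κ₀ + 1 ≤ 2 ^ (s.κ₀ + 1) := by
          rw [pow_succ]
          have := Nat.one_le_two_pow (n := s.κ₀)
          omega
        calc (2 ^ s.κ₀ + 1) ^ Nat.size (2 ^ s.κ₀) ≤ (2 ^ s.κ₀ + 1) ^ (s.κ₀ + 1) :=
              Nat.pow_le_pow_right (by omega) h1
          _ ≤ (2 ^ (s.κ₀ + 1)) ^ (s.κ₀ + 1) := Nat.pow_le_pow_left h2 _
          _ = 2 ^ ((s.κ₀ + 1) ^ 2) := by rw [← pow_mul, sq]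
          _ ≤ 2 ^ s.lam := Nat.pow_le_pow_right (by norm_num) (by rw [lam]; omega)
      obtain ⟨ι, hι, g, lab, h1, h2⟩ := (lab_of_cov co (s.cov_q (s.hℓ₁ q (by omega)))
        (s.cov_q (s.hℓ₂ q (by omega))) fun p p' => s.disj p p' (by omega)).mono hk
      refine ⟨ι, hι, g, lab, h1, fun p p' h => ?_⟩
      obtain ⟨h3, h4⟩ := h2 p p' h
      simp only [ans]
      cases hv : lab (g p)
      · rw [if_neg (h4 hv)]
        split_ifs <;> rfl
      · rw [if_neg (h3 hv), if_pos hq]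
        split_ifs <;> rfl
    · have hn := s.n₁_lt
      have h1 : ∀ p p', Tr (alg (s.f.Wd p p')) a q ↔ Tr (EE X₀ s.y₀) a q := fun p p' =>
        (s.tr_old p p' ((s.hN₁ q (by omega)).trans hn.le)).symm
      have h2 : ∀ p p', Tr (alg (s.f.Wd p p')) b q ↔ Tr (EE X₀ s.y₀) b q := fun p p' =>
        (s.tr_old p p' ((s.hN₂ q (by omega)).trans hn.le)).symm
      refine lab_const _ (if Tr (EE X₀ s.y₀) a q then true else
        if Tr (EE X₀ s.y₀) b q then false else s.y₀ (.inr (a, b, q))) fun p p' => ?_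
      simp only [ans, h1 p p', h2 p p', if_neg hq]

/-- acceptance in a constructed world -/
def AccW (M : Machine) (w : List Bool) (t : ℕ) (p p' : Bool × s.f.W → Bool) (κ : Oracle) : Prop :=
  AcceptsIn (join (EE X₀ (s.y p p' κ)) (sep X₀ (s.y p p' κ) a b)) M s.x₁ w t

theorem core : ∃ κ : (Bool × s.f.W → Bool) → Oracle, ∀ (σ : Bool) (M : Machine) (w : List Bool)
    (t : ℕ), w.length ≤ t → t ≤ s.T → ∀ F : Finset (Bool × s.f.W → Bool),
    2 ^ (s.lam * s.T) * 2 ^ 2 ^ s.f.n < F.card →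
    ∃ p ∈ F, ∃ p' ∈ F, (∀ u, p (!σ, u) = p' (!σ, u)) ∧
      (∃ u, p (σ, u) = true ∧ p' (σ, u) = false) ∧
      (s.AccW M w t p (co p') (κ p) ↔ s.AccW M w t p (co p) (κ p)) := by
  classical
  have hlab : ∀ r : List Bool, ∃ (ι : Type) (_ : Fintype ι) (g : (Bool × s.f.W → Bool) → ι)
      (lab : ι → Bool), r.length ≤ s.L → Fintype.card ι ≤ 2 ^ s.lam ∧
        ∀ p p', g p = g p' → s.ans p (co p') (lab (g p)) r = lab (g p) := by
    intro r
    by_cases hr : r.length ≤ s.L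
    · obtain ⟨ι, hι, g, lab, h1, h2⟩ := s.lab_q hr
      exact ⟨ι, hι, g, lab, fun _ => ⟨h1, h2⟩⟩
    · exact ⟨Unit, inferInstance, fun _ => (), fun _ => false, fun h => absurd h hr⟩
  choose ι hι g lab hlab using hlab
  refine ⟨fun p q => lab (true :: q) (g (true :: q) p), ?_⟩
  intro σ M w t hw ht F hF
  have hlen : max s.x₁.length w.length + t ≤ s.L := by
    have h1 := s.x₁_len
    have h2 := s.hT
    have : max s.x₁.length w.length ≤ s.n₁ + t := max_le (by omega) (by omega)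
    omega
  have hcW : Fintype.card s.f.W = 2 ^ s.f.n := by
    rw [card_vector, Fintype.card_bool]
  have hF' : (2 ^ s.lam) ^ t * 2 ^ Fintype.card s.f.W < F.card := by
    rw [hcW]
    refine lt_of_le_of_lt (Nat.mul_le_mul_right _ ?_) hF
    rw [← pow_mul]
    exact Nat.pow_le_pow_right (by norm_num) (Nat.mul_le_mul_left _ ht)
  obtain ⟨p, hp, p', hp', h1, h2, h3⟩ := cross (fun r hr => (hlab r hr).1) g lab M s.x₁ w t hlen σ F
    hF'
  refine ⟨p, hp, p', hp', h1, h2, ?_⟩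
  -- both oracles give the answers `lab r (g r p)`
  have key : ∀ p'' : Bool × s.f.W → Bool, ∀ r : List Bool, r.length ≤ s.L → g r p = g r p'' →
      join (EE X₀ (s.y p (co p'') fun q => lab (true :: q) (g (true :: q) p)))
        (sep X₀ (s.y p (co p'') fun q => lab (true :: q) (g (true :: q) p)) a b) r =
      lab r (g r p) := by
    intro p'' r hr hg
    rw [ans_y]
    have h4 := (hlab r hr).2 p p'' hg
    match r, h4 with
    | [], h4 => exact h4
    | false :: r, h4 => exact h4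
    | true :: r, h4 => exact h4
  have hacc : ∀ p'' : Bool × s.f.W → Bool,
      (∀ r ∈ asked (fun r => lab r (g r p)) M t (start M s.x₁ w), g r p'' = g r p) →
      (s.AccW M w t p (co p'') (fun q => lab (true :: q) (g (true :: q) p)) ↔
        AcceptsIn (fun r => lab r (g r p)) M s.x₁ w t) := by
    intro p'' h
    refine accepts_congr fun r hr => ?_
    exact key p'' r ((asked_start_len _ _ _ _ _ r hr).trans hlen) (h r hr).symm
  rw [hacc p' h3, hacc p fun r _ => rfl]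

theorem card_all : Fintype.card (Bool × s.f.W → Bool) = 2 ^ (2 * 2 ^ s.f.n) := by
  rw [Fintype.card_fun, Fintype.card_prod, Fintype.card_bool, card_vector, Fintype.card_bool]

/-- the numerical inequality -/
theorem num : 2 ^ (2 * s.T + 1) * (2 ^ (s.lam * s.T) * 2 ^ 2 ^ s.f.n) <
    Fintype.card (Bool × s.f.W → Bool) := by
  rw [card_all, ← pow_add, ← pow_add]
  refine Nat.pow_lt_pow_right (by norm_num) ?_
  have h1 := s.hB
  have h2 : 2 ^ s.n₁ ≤ 2 ^ s.f.n := Nat.pow_le_pow_right (by norm_num) s.n₁_lt.le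
  have h3 : s.lam = (2 * s.ℓ + 2 * (2 * s.ℓ) * s.ℓ + 1) ^ 2 + 2 * s.L := rfl
  rw [h3]
  omega

/-- the tests at the input `x₁` -/
theorem test_y (p p' : Bool × s.f.W → Bool) (κ : Oracle) (σ : Bool) :
    inp a b σ s.x₁ ∈ Test (OO X₀ (s.y p p' κ)) ↔ ∃ u, p (σ, u) = true ∧ p' (σ, u) = true := by
  rw [OO_y]
  exact Frame.test_X p p' σ

theorem test_co (p : Bool × s.f.W → Bool) (κ : Oracle) (σ : Bool) :
    inp a b σ s.x₁ ∉ Test (OO X₀ (s.y p (co p) κ)) := by
  rw [test_y]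
  rintro ⟨u, h1, h2⟩
  rw [co, h1] at h2
  exact absurd h2 (by decide)

theorem test_no {p p' : Bool × s.f.W → Bool} {σ : Bool} (h : ∀ u, p (σ, u) = p' (σ, u))
    (κ : Oracle) : inp a b σ s.x₁ ∉ Test (OO X₀ (s.y p (co p') κ)) := by
  rw [test_y]
  rintro ⟨u, h1, h2⟩
  rw [co, ← h, h1] at h2
  exact absurd h2 (by decide)

theorem test_yes {p p' : Bool × s.f.W → Bool} {σ : Bool}
    (h : ∃ u, p (σ, u) = true ∧ p' (σ, u) = false) (κ : Oracle) :
    inp a b σ s.x₁ ∈ Test (OO X₀ (s.y p (co p') κ)) := by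
  rw [test_y]
  obtain ⟨u, h1, h2⟩ := h
  exact ⟨u, h1, by rw [co, h2]; rfl⟩

theorem tame_co (p : Bool × s.f.W → Bool) (κ : Oracle) : Tame X₀ (s.y p (co p) κ) := by
  refine s.y_tame fun h _ => ?_
  exact absurd ((s.test_y p (co p) κ false).2 h) (s.test_co p κ false)

theorem tame_cross {p p' : Bool × s.f.W → Bool} {σ : Bool} (h : ∀ u, p (!σ, u) = p' (!σ, u))
    (κ : Oracle) : Tame X₀ (s.y p (co p') κ) := by
  have h0 := s.test_no h κ
  rw [test_y] at h0
  refine s.y_tame fun h1 h2 => ?_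
  cases σ
  · exact absurd h2 h0
  · exact absurd h1 h0

end Setup

end ESY.Alg
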