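import Pool.Agent.Lib.MP_80aaf5_lc.Few2.Defs

/-!
# The algebraic extension of an oracle
-/

namespace ESY

open Polynomial

/-- The value at the point `r` of the multilinear polynomial over the commutative ring `R` that
agrees with `A` on the strings of length `r.length` (with `false = 0` and `true = 1`). -/
def ml {R : Type} [CommRing R] : Oracle → List R → R
  | A, [] => ((A []).toNat : R)
  | A, r :: l => (1 - r) * ml (fun s => A (false :: s)) l + r * ml (fun s => A (true :: s)) l

/-- The sequence of numbers coded by a string: the number with the binary digits `b₀, …, bₘ`
(lowest first) is coded by `1 b₀ 1 b₁ … 1 bₘ 0`. -/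
def nums : List Bool → List ℕ
  | false :: s => 0 :: nums s
  | true :: b :: s =>
    match nums s with
    | a :: l => (2 * a + b.toNat) :: l
    | [] => []
  | _ => []

/-- The polynomial over `ℤ/(q+1)` with the given coefficients (lowest first). -/
noncomputable def pol (q : ℕ) : List ℕ → (ZMod (q + 1))[X]
  | [] => 0
  | a :: l => C (a : ZMod (q + 1)) + X * pol q l

/-- The algebraic extension of the oracle `A`. A query consists of numbers `q, k, l, j` and of
blocks of `k` numbers: the first block gives the coefficients of a monic polynomial `f` of degree
`k` over `ℤ/(q+1)`, the other blocks give the coordinates of a point over the finite ring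
`(ℤ/(q+1))[X]/(f)`. The answer is the `j`-th binary digit of the `l`-th coefficient (reduced
modulo `f`) of the value at this point of the multilinear extension of `A`. -/
noncomputable def ext (A : Oracle) (s : List Bool) : Bool :=
  match nums s with
  | q :: k :: l :: j :: r =>
    ((ml A ((List.range (r.length / k - 1)).map fun i => pol q ((r.drop (k * (i + 1))).take k)) %ₘ
      (X ^ k + pol q (r.take k))).coeff l).val.testBit j
  | _ => false

/-- The algebraic oracle over `A`: the oracle `A` together with its algebraic extension. -/
noncomputable def alg (A : Oracle) : Oracle := join A (ext A)

end ESY
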