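import Pool.Agent.Lib.MP_80aaf5_lc.Local

/-!
# Rectangles: covers, labellings, transcripts
-/

namespace ESY.Alg

open ESY

variable {α : Type}

/-- `Z` is the union of at most `k` rectangles -/
def Cov (k : ℕ) (Z : α → α → Prop) : Prop :=
  ∃ (ι : Type) (_ : Fintype ι) (A B : ι → α → Prop), Fintype.card ι ≤ k ∧
    ∀ p p', Z p p' ↔ ∃ i, A i p ∧ B i p'

/-- a labelling with at most `k` classes such that the label `v` of the class of `p`, `p'` satisfies
`Z v p (c p')` -/
def Lab (c : α → α) (k : ℕ) (Z : Bool → α → α → Prop) : Prop :=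
  ∃ (ι : Type) (_ : Fintype ι) (g : α → ι) (lab : ι → Bool), Fintype.card ι ≤ k ∧
    ∀ p p', g p = g p' → Z (lab (g p)) p (c p')

theorem Cov.mono {k k' : ℕ} {Z : α → α → Prop} (h : Cov k Z) (hk : k ≤ k') : Cov k' Z := by
  obtain ⟨ι, hι, A, B, h1, h2⟩ := h
  exact ⟨ι, hι, A, B, h1.trans hk, h2⟩

theorem Lab.mono {c : α → α} {k k' : ℕ} {Z : Bool → α → α → Prop} (h : Lab c k Z)
    (hk : k ≤ k') : Lab c k' Z := by
  obtain ⟨ι, hι, g, lab, h1, h2⟩ := h
  exact ⟨ι, hι, g, lab, h1.trans hk, h2⟩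

theorem cov_congr {k : ℕ} {Z Z' : α → α → Prop} (h : Cov k Z) (hZ : ∀ p p', Z' p p' ↔ Z p p') :
    Cov k Z' := by
  obtain ⟨ι, hι, A, B, h1, h2⟩ := h
  exact ⟨ι, hι, A, B, h1, fun p p' => (hZ p p').trans (h2 p p')⟩

theorem cov_const (P : Prop) : Cov 1 fun _ _ : α => P := by
  exact ⟨Unit, inferInstance, fun _ _ => P, fun _ _ => P, le_of_eq rfl,
    fun p p' => ⟨fun h => ⟨(), h, h⟩, fun ⟨_, h, _⟩ => h⟩⟩

/-- a union over a finite type, with restriction to rectangles -/
theorem cov_union {κ : Type} [Fintype κ] {k m : ℕ} (hκ : Fintype.card κ ≤ m)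
    {Z : α → α → Prop} {Y : κ → α → α → Prop} (C D : κ → α → Prop) (hY : ∀ i, Cov k (Y i))
    (hZ : ∀ p p', Z p p' ↔ ∃ i, C i p ∧ D i p' ∧ Y i p p') : Cov (m * k) Z := by
  choose ι hι A B h1 h2 using hY
  refine ⟨Σ i, ι i, inferInstance, fun x p => C x.1 p ∧ A x.1 x.2 p,
    fun x p' => D x.1 p' ∧ B x.1 x.2 p', ?_, ?_⟩
  · rw [Fintype.card_sigma]
    calc ∑ i, Fintype.card (ι i) ≤ ∑ _i : κ, k := Finset.sum_le_sum fun i _ => h1 i
      _ = Fintype.card κ * k := by rw [Finset.sum_const, smul_eq_mul, Finset.card_univ]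
      _ ≤ m * k := Nat.mul_le_mul_right _ hκ
  · intro p p'
    rw [hZ]
    constructor
    · rintro ⟨i, hC, hD, hy⟩
      obtain ⟨j, hA, hB⟩ := (h2 i p p').1 hy
      exact ⟨⟨i, j⟩, ⟨hC, hA⟩, hD, hB⟩
    · rintro ⟨⟨i, j⟩, ⟨hC, hA⟩, hD, hB⟩
      exact ⟨i, hC, hD, (h2 i p p').2 ⟨j, hA, hB⟩⟩

/-! ### The labelling lemma -/

open Classical in
/-- the rows (or columns) of the second family that meet a set -/
noncomputable def mt {κ : Type} (J : Finset κ) (𝒜 A : α → Prop) (C : κ → α → Prop) : Finset κ :=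
  J.filter fun j => ∃ p, 𝒜 p ∧ A p ∧ C j p

theorem lab_aux {ι κ : Type} [Fintype ι] (c : α → α) (A B : ι → α → Prop) (C D : κ → α → Prop)
    (hd : ∀ i j p p', ¬ ((A i p ∧ B i p') ∧ C j p ∧ D j p')) (m : ℕ) :
    ∀ (J : Finset κ) (𝒜 ℬ : α → Prop), J.card < 2 ^ m →
    (∀ j, j ∉ J → ∀ p p', 𝒜 p → ℬ p' → ¬ (C j p ∧ D j p')) →
    ∃ (g : α → List (Option ι)) (lab : List (Option ι) → Bool), (∀ p, (g p).length = m) ∧
      ∀ p p', 𝒜 p → ℬ (c p) → 𝒜 p' → ℬ (c p') → g p = g p' →
        ((lab (g p) = true → ¬ ∃ j, C j p ∧ D j (c p')) ∧ (lab (g p) = false → ¬ ∃ i, A i p ∧ B i (c p'))) := by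
  classical
  induction m with
  | zero =>
    intro J 𝒜 ℬ hJ hd'
    have hJ0 : J = ∅ := Finset.card_eq_zero.1 (by simpa using hJ)
    refine ⟨fun _ => [], fun _ => true, fun _ => rfl, fun p p' h1 _ _ h4 _ =>
      ⟨fun _ => ?_, fun h => absurd h (by simp)⟩⟩
    rintro ⟨j, hj⟩
    exact hd' j (by rw [hJ0]; exact Finset.notMem_empty j) p (c p') h1 h4 hj
  | succ m ih =>
    intro J 𝒜 ℬ hJ hd'
    have hrc : ∀ i, (mt J 𝒜 (A i) C).card < 2 ^ m ∨ (mt J ℬ (B i) D).card < 2 ^ m := by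
      intro i
      by_contra hcon
      push Not at hcon
      have hdj : Disjoint (mt J 𝒜 (A i) C) (mt J ℬ (B i) D) := by
        rw [Finset.disjoint_left]
        intro j h1 h2
        obtain ⟨p, -, h3, h4⟩ := (Finset.mem_filter.1 h1).2
        obtain ⟨p', -, h5, h6⟩ := (Finset.mem_filter.1 h2).2
        exact hd i j p p' ⟨⟨h3, h5⟩, h4, h6⟩
      have h1 : (mt J 𝒜 (A i) C ∪ mt J ℬ (B i) D).card ≤ J.card :=
        Finset.card_le_card (Finset.union_subset (Finset.filter_subset _ _)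
          (Finset.filter_subset _ _))
      rw [Finset.card_union_of_disjoint hdj] at h1
      rw [pow_succ] at hJ
      omega
    have hrec : ∀ i, ∃ (g : α → List (Option ι)) (lab : List (Option ι) → Bool),
        (∀ p, (g p).length = m) ∧ ∀ p p',
        ((mt J 𝒜 (A i) C).card < 2 ^ m → 𝒜 p → ℬ (c p) → 𝒜 p' → ℬ (c p') → A i p → A i p' →
          g p = g p' →
          ((lab (g p) = true → ¬ ∃ j, C j p ∧ D j (c p')) ∧ (lab (g p) = false → ¬ ∃ i, A i p ∧ B i (c p')))) ∧
        (¬ (mt J 𝒜 (A i) C).card < 2 ^ m → 𝒜 p → ℬ (c p) → 𝒜 p' → ℬ (c p') → B i (c p) →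
          B i (c p') → g p = g p' →
          ((lab (g p) = true → ¬ ∃ j, C j p ∧ D j (c p')) ∧ (lab (g p) = false → ¬ ∃ i, A i p ∧ B i (c p')))) := by
      intro i
      by_cases hi : (mt J 𝒜 (A i) C).card < 2 ^ m
      · obtain ⟨g, lab, h1, h2⟩ := ih (mt J 𝒜 (A i) C) (fun p => 𝒜 p ∧ A i p) ℬ hi (by
          rintro j hj p p' ⟨hp, hAp⟩ hp' ⟨h3, h4⟩
          by_cases hjJ : j ∈ J
          · exact hj (Finset.mem_filter.2 ⟨hjJ, p, hp, hAp, h3⟩)
          · exact hd' j hjJ p p' hp hp' ⟨h3, h4⟩)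
        exact ⟨g, lab, h1, fun p p' => ⟨fun _ a1 a2 a3 a4 a5 a6 a7 =>
          h2 p p' ⟨a1, a5⟩ a2 ⟨a3, a6⟩ a4 a7, fun h => absurd hi h⟩⟩
      · obtain ⟨g, lab, h1, h2⟩ := ih (mt J ℬ (B i) D) 𝒜 (fun p => ℬ p ∧ B i p)
          ((hrc i).resolve_left hi) (by
          rintro j hj p p' hp ⟨hp', hBp⟩ ⟨h3, h4⟩
          by_cases hjJ : j ∈ J
          · exact hj (Finset.mem_filter.2 ⟨hjJ, p', hp', hBp, h4⟩)
          · exact hd' j hjJ p p' hp hp' ⟨h3, h4⟩)
        exact ⟨g, lab, h1, fun p p' => ⟨fun h => absurd h hi, fun _ a1 a2 a3 a4 a5 a6 a7 =>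
          h2 p p' a1 ⟨a2, a5⟩ a3 ⟨a4, a6⟩ a7⟩⟩
    choose g lab hg1 hg2 using hrec
    -- the class of a point
    let T : ι → α → Prop := fun i p =>
      ((mt J 𝒜 (A i) C).card < 2 ^ m ∧ A i p) ∨ (¬ (mt J 𝒜 (A i) C).card < 2 ^ m ∧ B i (c p))
    obtain ⟨cl, hcl, hcn⟩ : ∃ cl : α → Option ι, (∀ p i, cl p = some i → T i p) ∧
        ∀ p, cl p = none → ∀ i, ¬ T i p := by
      have h : ∀ p, ∃ o : Option ι, (∀ i, o = some i → T i p) ∧ (o = none → ∀ i, ¬ T i p) := by
        intro p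
        by_cases hp : ∃ i, T i p
        · obtain ⟨i, hi⟩ := hp
          exact ⟨some i, fun i' h => Option.some.inj h ▸ hi, fun h => absurd h (by simp)⟩
        · exact ⟨none, fun i h => absurd h (by simp), fun _ i hi => hp ⟨i, hi⟩⟩
      choose cl h1 h2 using h
      exact ⟨cl, h1, h2⟩
    refine ⟨fun p => cl p :: (cl p).elim (List.replicate m none) (fun i => g i p),
      fun l => (l.headD none).elim false (fun i => lab i l.tail), ?_, ?_⟩
    · intro p
      rcases h : cl p with _ | i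
      · simp [h]
      · simp [h, hg1 i p]
    · intro p p' a1 a2 a3 a4 heq
      have h1 : cl p = cl p' := (List.cons.inj heq).1
      have h2 := (List.cons.inj heq).2
      simp only [List.headD_cons, List.tail_cons]
      rcases hp : cl p with _ | i
      · simp only [Option.elim_none]
        refine ⟨fun h => absurd h (by simp), fun _ => ?_⟩
        rintro ⟨i, hi1, hi2⟩
        by_cases hi : (mt J 𝒜 (A i) C).card < 2 ^ m
        · exact hcn p hp i (Or.inl ⟨hi, hi1⟩)
        · exact hcn p' (h1 ▸ hp) i (Or.inr ⟨hi, hi2⟩)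
      · have hp' : cl p' = some i := h1 ▸ hp
        rw [hp, hp'] at h2
        simp only [Option.elim_some] at h2 ⊢
        by_cases hi : (mt J 𝒜 (A i) C).card < 2 ^ m
        · have t1 : A i p := by
            rcases hcl p i hp with h | h
            · exact h.2
            · exact absurd hi h.1
          have t2 : A i p' := by
            rcases hcl p' i hp' with h | h
            · exact h.2
            · exact absurd hi h.1
          exact (hg2 i p p').1 hi a1 a2 a3 a4 t1 t2 h2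
        · have t1 : B i (c p) := by
            rcases hcl p i hp with h | h
            · exact absurd h.1 hi
            · exact h.2
          have t2 : B i (c p') := by
            rcases hcl p' i hp' with h | h
            · exact absurd h.1 hi
            · exact h.2
          exact (hg2 i p p').2 hi a1 a2 a3 a4 t1 t2 h2

theorem lab_of_cov (c : α → α) {k : ℕ} {U V : α → α → Prop} (hU : Cov k U) (hV : Cov k V)
    (hd : ∀ p p', ¬ (U p p' ∧ V p p')) :
    Lab c ((k + 1) ^ Nat.size k) fun v p p' => (v = true → ¬ V p p') ∧ (v = false → ¬ U p p') := by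
  obtain ⟨ι, hι, A, B, h1, h2⟩ := hU
  obtain ⟨κ, hκ, C, D, h3, h4⟩ := hV
  obtain ⟨g, lab, hg1, hg2⟩ := lab_aux c A B C D
    (fun i j p p' h => hd p p' ⟨(h2 p p').2 ⟨i, h.1⟩, (h4 p p').2 ⟨j, h.2⟩⟩) (Nat.size k)
    Finset.univ (fun _ => True) (fun _ => True)
    (by rw [Finset.card_univ]; exact h3.trans_lt (Nat.lt_size_self k))
    (fun j hj => absurd (Finset.mem_univ j) hj)
  refine ⟨List.Vector (Option ι) (Nat.size k), inferInstance, fun p => ⟨g p, hg1 p⟩,
    fun v => lab v.1, ?_, ?_⟩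
  · rw [card_vector, Fintype.card_option]
    exact Nat.pow_le_pow_left (by omega) _
  · intro p p' h
    simp only at h ⊢
    have h5 := hg2 p p' trivial trivial trivial trivial (congrArg Subtype.val h)
    rw [h2, h4]
    exact h5

/-! ### Transcripts -/

/-- pigeonhole -/
theorem pigeon {ι : Type} [Fintype ι] {Λ : ℕ} (h : Fintype.card ι ≤ Λ) (g : α → ι)
    (F : Finset α) (hF : F.Nonempty) : ∃ F' ⊆ F, F'.Nonempty ∧ F.card ≤ Λ * F'.card ∧
      ∀ p ∈ F', ∀ p' ∈ F', g p' = g p := by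
  classical
  have h1 : F.card = ∑ b : ι, (F.filter fun a => g a = b).card :=
    Finset.card_eq_sum_card_fiberwise fun a _ => Finset.mem_coe.2 (Finset.mem_univ (g a))
  have hne : (Finset.univ : Finset ι).Nonempty := ⟨g hF.choose, Finset.mem_univ _⟩
  obtain ⟨b, -, hb⟩ := Finset.exists_max_image Finset.univ
    (fun b : ι => (F.filter fun a => g a = b).card) hne
  have h2 : F.card ≤ Λ * (F.filter fun a => g a = b).card := by
    calc F.card = ∑ b : ι, (F.filter fun a => g a = b).card := h1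
      _ ≤ ∑ _b : ι, (F.filter fun a => g a = b).card := Finset.sum_le_sum fun b' _ => hb b'
        (Finset.mem_univ b')
      _ = Fintype.card ι * (F.filter fun a => g a = b).card := by
        rw [Finset.sum_const, smul_eq_mul, Finset.card_univ]
      _ ≤ Λ * (F.filter fun a => g a = b).card := Nat.mul_le_mul_right _ h
  refine ⟨F.filter fun a => g a = b, Finset.filter_subset _ _, ?_, h2, ?_⟩
  · rw [Finset.nonempty_iff_ne_empty]
    intro h3
    rw [h3, Finset.card_empty, mul_zero] at h2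
    exact absurd (Finset.card_pos.2 hF) (by omega)
  · intro p hp p' hp'
    rw [(Finset.mem_filter.1 hp).2, (Finset.mem_filter.1 hp').2]

/-- Many points have the same classes for all queries that are asked. -/
theorem transcripts {Λ L : ℕ} {ι : List Bool → Type} [∀ r, Fintype (ι r)]
    (hΛ : ∀ r : List Bool, r.length ≤ L → Fintype.card (ι r) ≤ Λ) (g : ∀ r, α → ι r)
    (lab : ∀ r, ι r → Bool) (M : Machine) : ∀ (t : ℕ) (c : Cfg M) (m : ℕ),
    (∀ i, (c.stack i).length ≤ m) → m + t ≤ L → ∀ F : Finset α, F.Nonempty →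
    ∃ F' ⊆ F, F'.Nonempty ∧ F.card ≤ Λ ^ t * F'.card ∧
      ∀ p ∈ F', ∀ p' ∈ F', ∀ r ∈ asked (fun r => lab r (g r p)) M t c, g r p' = g r p := by
  intro t
  induction t with
  | zero =>
    intro c m _ _ F hF
    exact ⟨F, subset_rfl, hF, by simp, fun p _ p' _ r hr => absurd hr (by simp [asked])⟩
  | succ t ih =>
    intro c m hm hL F hF
    obtain ⟨p₀, hp₀⟩ := hF
    -- the case of no query
    have key : ∀ F₁ ⊆ F, F₁.Nonempty → F.card ≤ Λ * F₁.card →
        (∀ p ∈ F₁, ∀ p' ∈ F₁, ∀ r ∈ asked1 M c, g r p' = g r p) →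
        ∃ F' ⊆ F, F'.Nonempty ∧ F.card ≤ Λ ^ (t + 1) * F'.card ∧
          ∀ p ∈ F', ∀ p' ∈ F', ∀ r ∈ asked (fun r => lab r (g r p)) M (t + 1) c, g r p' = g r p := by
      intro F₁ hF₁ hne hcard hr
      obtain ⟨p₁, hp₁⟩ := hne
      have hst : ∀ p ∈ F₁, step (fun r => lab r (g r p)) M c =
          step (fun r => lab r (g r p₁)) M c := by
        intro p hp
        refine step_congr fun r hr' => ?_
        rw [hr p₁ hp₁ p hp r hr']
      obtain ⟨F', h1, h2, h3, h4⟩ := ih (step (fun r => lab r (g r p₁)) M c) (m + 1)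
        (step_len _ M c m hm) (by omega) F₁ ⟨p₁, hp₁⟩
      refine ⟨F', h1.trans hF₁, h2, ?_, ?_⟩
      · calc F.card ≤ Λ * F₁.card := hcard
          _ ≤ Λ * (Λ ^ t * F'.card) := Nat.mul_le_mul_left _ h3
          _ = Λ ^ (t + 1) * F'.card := by ring
      · intro p hp p' hp' r hr'
        rw [asked, List.mem_append, hst p (h1 hp)] at hr'
        rcases hr' with hr' | hr'
        · exact hr p (h1 hp) p' (h1 hp') r hr'
        · exact h4 p hp p' hp' r hr'
    have hΛ1 : 1 ≤ Λ := by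
      have h1 := hΛ [] (Nat.zero_le _)
      have h2 : 0 < Fintype.card (ι []) := Fintype.card_pos_iff.2 ⟨g [] p₀⟩
      omega
    rcases hc : asked1 M c with _ | ⟨r, l⟩
    · exact key F subset_rfl ⟨p₀, hp₀⟩ (Nat.le_mul_of_pos_left _ (by omega))
        (fun p _ p' _ r hr => absurd hr (by rw [hc]; simp))
    · have hl : l = [] := by
        unfold asked1 at hc
        cases hcode : M.code c.state with
        | push _ _ _ => rw [hcode] at hc; simp at hc
        | pop _ _ _ _ => rw [hcode] at hc; simp at hc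
        | halt _ => rw [hcode] at hc; simp at hc
        | query i _ _ =>
          rw [hcode] at hc
          simp only [List.cons.injEq] at hc
          exact hc.2.symm
      have hrL : r.length ≤ L := by
        unfold asked1 at hc
        cases hcode : M.code c.state with
        | push _ _ _ => rw [hcode] at hc; simp at hc
        | pop _ _ _ _ => rw [hcode] at hc; simp at hc
        | halt _ => rw [hcode] at hc; simp at hc
        | query i _ _ =>
          rw [hcode] at hc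
          simp only [List.cons.injEq] at hc
          rw [← hc.1]
          have := hm i
          omega
      obtain ⟨F₁, h1, h2, h3, h4⟩ := pigeon (hΛ r hrL) (g r) F ⟨p₀, hp₀⟩
      refine key F₁ h1 h2 h3 ?_
      intro p hp p' hp' r' hr'
      rw [hc, hl, List.mem_singleton] at hr'
      rw [hr']
      exact h4 p hp p' hp'

end ESY.Alg
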