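import Pool.Agent.Lib.MP_b9add9_lc.Alg.World
import Pool.Agent.Lib.MP_b9add9_lc.Uni.Push

/-!
# The space of parameters
-/

namespace ESY.Alg

open ESY ESY.Few Set Topology

/-- indices: values of the oracle, values of the separators -/
abbrev Idx : Type := List Bool ⊕ (ℕ × ℕ × List Bool)

/-- the parameters -/
abbrev Par : Type := Idx → Bool

/-- size of an index -/
def sz : Idx → ℕ
  | .inl w => w.length
  | .inr (_, _, q) => q.length

variable (X₀ : Oracle)

/-- the oracle of a parameter -/
def OO (y : Par) : Oracle := join X₀ fun s => y (.inl s)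

/-- the algebraic extension of the oracle of a parameter -/
noncomputable def EE (y : Par) : Oracle := alg (OO X₀ y)

open Classical in
/-- the separator of the pair of languages accepted by the machines `a`, `b` -/
noncomputable def sep (y : Par) (a b : ℕ) : Oracle := fun q =>
  if Tr (EE X₀ y) a q then true else if Tr (EE X₀ y) b q then false else y (.inr (a, b, q))

theorem exists_size {U : Set Par} (hU : IsOpen U) {y₀ : Par} (hy : y₀ ∈ U) :
    ∃ N, ∀ y : Par, (∀ i, sz i ≤ N → y i = y₀ i) → y ∈ U := by
  obtain ⟨I, u, h1, h2⟩ := isOpen_pi_iff.1 hU y₀ hy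
  refine ⟨I.sup sz, fun y h => h2 fun i hi => ?_⟩
  rw [h i (Finset.le_sup (Finset.mem_coe.1 hi))]
  exact (h1 i (Finset.mem_coe.1 hi)).2

theorem clopen_coord (i : Idx) : IsClopen {y : Par | y i = true} :=
  (isClopen_discrete ({true} : Set Bool)).preimage (continuous_apply i)

theorem clopen_OO (r : List Bool) : IsClopen {y | OO X₀ y r = true} := by
  match r with
  | [] => simp [OO, join, isClopen_empty]
  | false :: r =>
    by_cases h : X₀ r = true
    · simp [OO, join, h, isClopen_univ]
    · simp [OO, join, h, isClopen_empty]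
  | true :: r => exact clopen_coord _

theorem clopen_EE (s : List Bool) : IsClopen {y | EE X₀ y s = true} := by
  refine clopen_of_local fun y₀ => ?_
  have h1 : ∀ r : List Bool, ∃ V : Set Par, IsOpen V ∧ y₀ ∈ V ∧ ∀ y ∈ V, OO X₀ y r = OO X₀ y₀ r := by
    intro r
    obtain ⟨V, hV, hy, hVP⟩ := local_of_clopen (clopen_OO X₀ r) y₀
    exact ⟨V, hV, hy, fun y hyy => Bool.eq_iff_iff.2 (hVP y hyy)⟩
  choose V hV hyV hVP using h1
  have hfin : {r : List Bool | r.length ≤ s.length}.Finite := List.finite_length_le Bool s.length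
  refine ⟨⋂ r ∈ hfin.toFinset, V r, isOpen_biInter_finset fun s _ => hV s,
    by simpa using fun s _ => hyV s, fun y hy => ?_⟩
  simp only [mem_iInter] at hy
  have : EE X₀ y s = EE X₀ y₀ s := alg_congr fun r hr => hVP r y (hy r (by simpa using hr))
  rw [this]

theorem clopen_trE (e : ℕ) (x : List Bool) : IsClopen {y | Tr (EE X₀ y) e x} :=
  clopen_tr fun s _ => clopen_EE X₀ s

theorem clopen_sep (a b : ℕ) (q : List Bool) : IsClopen {y | sep X₀ y a b q = true} := by
  have h1 : {y | sep X₀ y a b q = true} =
      {y | Tr (EE X₀ y) a q} ∪ ({y | Tr (EE X₀ y) b q}ᶜ ∩ {y | y (.inr (a, b, q)) = true}) := by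
    ext y
    simp only [mem_ofPred_eq, mem_union, mem_inter_iff, mem_compl_iff, sep]
    split_ifs <;> simp_all
  rw [h1]
  exact (clopen_trE X₀ a q).union ((clopen_trE X₀ b q).compl.inter (clopen_coord _))

theorem clopen_join (a b : ℕ) (r : List Bool) :
    IsClopen {y | join (EE X₀ y) (sep X₀ y a b) r = true} := by
  match r with
  | [] => simp [join, isClopen_empty]
  | false :: r => exact clopen_EE X₀ r
  | true :: r => exact clopen_sep X₀ a b r

theorem clopen_test (x : List Bool) : IsClopen {y | x ∈ Test (OO X₀ y)} := by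
  have h1 : {y | x ∈ Test (OO X₀ y)} = ⋃ w ∈ {w : List Bool | w.length = x.length},
      ⋂ j ∈ Finset.range (x.length + 1), {y | OO X₀ y (qstr x w j) = true} := by
    ext y
    simp only [Test, mem_ofPred_eq, mem_iUnion, mem_iInter, exists_prop, Finset.mem_range,
      Nat.lt_succ_iff]
  rw [h1]
  refine Set.Finite.isClopen_biUnion ?_ fun w _ => ?_
  · exact (List.finite_length_le Bool x.length).subset fun w hw => le_of_eq hw
  · exact isClopen_biInter_finset fun j _ => clopen_OO X₀ _

end ESY.Alg
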