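import Pool.Agent.Lib.MP_b9add9_lc.Alg.Space

/-!
# Tame parameters; the setup of the density argument
-/

namespace ESY.Alg

open ESY ESY.Few Set
open ESY.Uni (inp inp_length inp_inj)

variable (X₀ : Oracle)

/-- the closed condition on the parameters -/
def KK : Set Par := {y | ∀ a b x, inp a b false x ∈ Test (OO X₀ y) →
  inp a b true x ∈ Test (OO X₀ y) →
  ∃ q : List Bool, q.length ≤ 2 ^ (inp a b false x).length ∧ Tr (EE X₀ y) a q ∧ Tr (EE X₀ y) b q}

theorem isClosed_KK : IsClosed (KK X₀) := by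
  have h1 : KK X₀ = ⋂ a, ⋂ b, ⋂ x, ({y | inp a b false x ∈ Test (OO X₀ y)}ᶜ ∪
      ({y | inp a b true x ∈ Test (OO X₀ y)}ᶜ ∪
      ⋃ q ∈ {q : List Bool | q.length ≤ 2 ^ (inp a b false x).length},
        ({y | Tr (EE X₀ y) a q} ∩ {y | Tr (EE X₀ y) b q}))) := by
    ext y
    simp only [KK, mem_ofPred_eq, mem_iInter, mem_union, mem_compl_iff, mem_iUnion, exists_prop,
      mem_inter_iff]
    refine forall_congr' fun a => forall_congr' fun b => forall_congr' fun x => ?_
    rw [← imp_iff_not_or, ← imp_iff_not_or]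
  rw [h1]
  refine isClosed_iInter fun a => isClosed_iInter fun b => isClosed_iInter fun x => ?_
  refine (clopen_test X₀ _).compl.1.union ((clopen_test X₀ _).compl.1.union ?_)
  exact ((List.finite_length_le Bool _).isClopen_biUnion fun q _ =>
    (clopen_trE X₀ a q).inter (clopen_trE X₀ b q)).1

/-- the tame parameters -/
def Tame (y : Par) : Prop :=
  y ∈ KK X₀ ∧ ∃ N, ∀ s : List Bool, N < s.length → y (.inl s) = false

theorem OO_true (y : Par) (s : List Bool) : OO X₀ y (true :: s) = y (.inl s) := rfl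

theorem test_free {y : Par} {x : List Bool} (h : x ∈ Test (OO X₀ y)) :
    ∃ s : List Bool, s.length = 2 * x.length ∧ y (.inl s) = true := by
  obtain ⟨w, hw, hj⟩ := h
  have h0 := hj 0 (Nat.zero_le _)
  have hl := qstr_length x w 0 hw
  rw [qstr_cons] at h0 hl
  rw [OO_true] at h0
  refine ⟨_, ?_, h0⟩
  simp only [List.length_cons] at hl
  omega

theorem tame_zero : Tame X₀ (fun _ => false) := by
  refine ⟨fun a b x h _ => ?_, 0, fun s _ => rfl⟩
  obtain ⟨s, -, hs⟩ := test_free X₀ h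
  exact absurd hs (by simp)

theorem tame_bound {y₀ : Par} (h : Tame X₀ y₀) (N₀ : ℕ) : ∃ N, N₀ ≤ N ∧
    (∀ s : List Bool, N ≤ s.length → y₀ (.inl s) = false) ∧
    ∀ a b x, inp a b false x ∈ Test (OO X₀ y₀) → inp a b true x ∈ Test (OO X₀ y₀) →
      ∃ q : List Bool, q.length ≤ 2 ^ (inp a b false x).length ∧ Tr (EE X₀ y₀) a q ∧
        Tr (EE X₀ y₀) b q ∧ (stm a q).length ≤ N ∧ (stm b q).length ≤ N := by
  classical
  obtain ⟨hK, N₁, hN₁⟩ := h
  have hfin : {p : ℕ × ℕ × List Bool | (inp p.1 p.2.1 false p.2.2).length ≤ N₁}.Finite := by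
    refine Set.Finite.of_finite_image (f := fun p : ℕ × ℕ × List Bool => inp p.1 p.2.1 false p.2.2)
      ((List.finite_length_le Bool N₁).subset ?_) ?_
    · rintro _ ⟨p, hp, rfl⟩
      exact hp
    · rintro ⟨a, b, x⟩ _ ⟨a', b', x'⟩ _ h
      obtain ⟨rfl, rfl, -, rfl⟩ := inp_inj h
      rfl
  have hq : ∀ p : ℕ × ℕ × List Bool, ∃ q : List Bool,
      inp p.1 p.2.1 false p.2.2 ∈ Test (OO X₀ y₀) → inp p.1 p.2.1 true p.2.2 ∈ Test (OO X₀ y₀) →
      (q.length ≤ 2 ^ (inp p.1 p.2.1 false p.2.2).length ∧ Tr (EE X₀ y₀) p.1 q ∧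
        Tr (EE X₀ y₀) p.2.1 q) := by
    intro p
    by_cases h1 : inp p.1 p.2.1 false p.2.2 ∈ Test (OO X₀ y₀) ∧
        inp p.1 p.2.1 true p.2.2 ∈ Test (OO X₀ y₀)
    · obtain ⟨q, hq⟩ := hK _ _ _ h1.1 h1.2
      exact ⟨q, fun _ _ => hq⟩
    · exact ⟨[], fun h2 h3 => absurd ⟨h2, h3⟩ h1⟩
  choose q hq using hq
  refine ⟨N₀ + (N₁ + 1) + hfin.toFinset.sup fun p => (stm p.1 (q p)).length +
    (stm p.2.1 (q p)).length, by omega, fun s hs => hN₁ s (by omega), ?_⟩
  intro a b x h1 h2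
  have h3 := hq (a, b, x) h1 h2
  refine ⟨q (a, b, x), h3.1, h3.2.1, h3.2.2, ?_⟩
  have h4 : (inp a b false x).length ≤ N₁ := by
    obtain ⟨s, hs, hD⟩ := test_free X₀ h1
    by_contra hcon
    rw [hN₁ s (by omega)] at hD
    exact absurd hD (by decide)
  have h5 := Finset.le_sup (s := hfin.toFinset) (f := fun p : ℕ × ℕ × List Bool =>
    (stm p.1 (q p)).length + (stm p.2.1 (q p)).length) (b := (a, b, x)) (by simpa using h4)
  simp only at h5
  omega

/-- The data of the density argument. -/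
structure Setup (a b : ℕ) : Type where
  U : Set Par
  y₀ : Par
  N : ℕ
  hU : ∀ y : Par, (∀ i, sz i ≤ N → y i = y₀ i) → y ∈ U
  hdis : ∀ y ∈ U, Tame X₀ y → ∀ q, ¬ (Tr (EE X₀ y) a q ∧ Tr (EE X₀ y) b q)
  hfin : ∀ s : List Bool, N ≤ s.length → y₀ (.inl s) = false
  hviol : ∀ a' b' x, inp a' b' false x ∈ Test (OO X₀ y₀) → inp a' b' true x ∈ Test (OO X₀ y₀) →
    ∃ q : List Bool, q.length ≤ 2 ^ (inp a' b' false x).length ∧ Tr (EE X₀ y₀) a' q ∧
      Tr (EE X₀ y₀) b' q ∧ (stm a' q).length ≤ N ∧ (stm b' q).length ≤ N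
  n₁ : ℕ
  hn₁ : N ≤ n₁
  L : ℕ
  hL : L ≤ 2 ^ n₁
  ℓ : ℕ
  hℓ₁ : ∀ q : List Bool, q.length ≤ L → (stm a q).length ≤ ℓ
  hℓ₂ : ∀ q : List Bool, q.length ≤ L → (stm b q).length ≤ ℓ
  hN₁ : ∀ q : List Bool, q.length ≤ N → (stm a q).length ≤ n₁
  hN₂ : ∀ q : List Bool, q.length ≤ N → (stm b q).length ≤ n₁
  T : ℕ
  hT : n₁ + 2 * T ≤ L
  hB : 2 * T + 1 + ((2 * ℓ + 2 * (2 * ℓ) * ℓ + 1) ^ 2 + 2 * L) * T < 2 ^ n₁

namespace Setup

variable {X₀} {a b : ℕ} (s : Setup X₀ a b)

/-- the input of the pair -/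
def x₁ : List Bool := List.replicate s.n₁ false

theorem x₁_len : s.x₁.length = s.n₁ := by simp [x₁]

/-- the frame -/
def f : Frame where
  n := a + b + 3 + s.n₁
  X := fun σ => inp a b σ s.x₁
  O := OO X₀ s.y₀
  hX := fun σ => by rw [inp_length, x₁_len]
  hXi := fun h => absurd (inp_inj h).2.2.1 (by decide)
  hn := by omega

theorem n₁_lt : s.n₁ < s.f.n := by
  change s.n₁ < a + b + 3 + s.n₁
  omega

theorem N_lt : s.N < s.f.n := s.hn₁.trans_lt s.n₁_lt

/-- the index of the parameter that can be chosen freely -/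
def free (i : ℕ × ℕ × List Bool) : Prop := i.1 = a ∧ i.2.1 = b ∧ s.N < i.2.2.length

open Classical in
/-- the constructed parameters: plants `p`, `p'`, values `κ` of the separator -/
noncomputable def y (p p' : Bool × s.f.W → Bool) (κ : Oracle) : Par
  | .inl r => s.f.Wd p p' (true :: r)
  | .inr i => if s.free i then κ i.2.2 else s.y₀ (.inr i)

theorem OO_y (p p' : Bool × s.f.W → Bool) (κ : Oracle) : OO X₀ (s.y p p' κ) = s.f.Wd p p' := by
  have h : ∀ r : List Bool, (∀ r', r ≠ true :: r') → s.f.Wd p p' r = OO X₀ s.y₀ r := by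
    intro r hr
    refine Frame.wd_old p p' ?_
    rintro ⟨σ, w, j, -, hat⟩
    obtain ⟨r', rfl⟩ := Frame.at_cons hat
    exact hr r' rfl
  funext r
  match r with
  | [] => exact (h [] (by simp)).symm
  | false :: r => exact (h (false :: r) (by simp)).symm
  | true :: r => rfl

theorem EE_y (p p' : Bool × s.f.W → Bool) (κ : Oracle) :
    EE X₀ (s.y p p' κ) = alg (s.f.Wd p p') := by
  rw [EE, OO_y]

theorem y_agree (p p' : Bool × s.f.W → Bool) (κ : Oracle) :
    ∀ i, sz i ≤ s.N → s.y p p' κ i = s.y₀ i := by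
  have hN := s.N_lt
  intro i hi
  match i, hi with
  | .inl r, hi =>
    have h1 : r.length ≤ s.N := hi
    change s.f.Wd p p' (true :: r) = s.y₀ (.inl r)
    rw [Frame.wd_short p p' (by rw [List.length_cons]; omega)]
    rfl
  | .inr (a', b', q), hi =>
    have h1 : q.length ≤ s.N := hi
    refine if_neg ?_
    rintro ⟨-, -, h2⟩
    have h3 : s.N < q.length := h2
    omega

theorem y_mem (p p' : Bool × s.f.W → Bool) (κ : Oracle) : s.y p p' κ ∈ s.U :=
  s.hU _ (s.y_agree p p' κ)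

theorem ext_agree (p p' : Bool × s.f.W → Bool) :
    Agree (2 * s.f.n) (EE X₀ s.y₀) (alg (s.f.Wd p p')) := by
  intro r hr
  refine alg_congr fun r' hr' => ?_
  rw [Frame.wd_short p p' (hr'.trans hr)]
  rfl

theorem tr_old {e : ℕ} {q : List Bool} (p p' : Bool × s.f.W → Bool)
    (h : (stm e q).length ≤ s.f.n) : Tr (EE X₀ s.y₀) e q ↔ Tr (alg (s.f.Wd p p')) e q :=
  tr_congr ((s.ext_agree p p').mono (by omega))

theorem y_tame {p p' : Bool × s.f.W → Bool} {κ : Oracle}
    (h : (∃ u, p (false, u) = true ∧ p' (false, u) = true) →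
      (∃ u, p (true, u) = true ∧ p' (true, u) = true) →
      ∃ q : List Bool, q.length ≤ 2 ^ s.n₁ ∧ Tr (alg (s.f.Wd p p')) a q ∧
        Tr (alg (s.f.Wd p p')) b q) : Tame X₀ (s.y p p' κ) := by
  have hN := s.N_lt
  have hfO : ∀ r : List Bool, s.N ≤ r.length → s.f.O (true :: r) = false := s.hfin
  have hX : ∀ (a' b' : ℕ) (σ σ' : Bool) (x : List Bool), inp a' b' σ x = s.f.X σ' →
      a' = a ∧ b' = b ∧ σ = σ' ∧ x = s.x₁ := fun a' b' σ σ' x h => inp_inj h
  have hXl : ∀ σ, (s.f.X σ).length = s.f.n := s.f.hX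
  constructor
  · intro a' b' x h1 h2
    rw [OO_y] at h1 h2
    rw [EE_y]
    have hl : ∀ σ, (inp a' b' σ x).length = (inp a' b' false x).length := by
      intro σ
      rw [inp_length, inp_length]
    rcases Frame.test_old hfO hN.le p p' h1 with ⟨h3, h3'⟩ | ⟨σ, h3⟩ <;>
      rcases Frame.test_old hfO hN.le p p' h2 with ⟨h4, h4'⟩ | ⟨σ', h4⟩
    · obtain ⟨q, hq1, hq2, hq3, hq4, hq5⟩ := s.hviol a' b' x h3 h4
      exact ⟨q, hq1, (s.tr_old p p' (by omega)).1 hq2, (s.tr_old p p' (by omega)).1 hq3⟩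
    · exfalso
      have h6 := hl true
      rw [h4, hXl] at h6
      omega
    · exfalso
      have h6 := hl true
      rw [h3, hXl] at h6
      omega
    · obtain ⟨rfl, rfl, h5, rfl⟩ := hX _ _ _ _ _ h3
      obtain ⟨-, -, h6, -⟩ := hX _ _ _ _ _ h4
      subst h5 h6
      obtain ⟨q, hq1, hq2⟩ := h ((Frame.test_X p p' false).1 h1) ((Frame.test_X p p' true).1 h2)
      refine ⟨q, hq1.trans (Nat.pow_le_pow_right (by norm_num) ?_), hq2⟩
      have h7 := hXl false
      have h8 := s.n₁_lt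
      rw [h3, h7]
      omega
  · refine ⟨s.N + 3 * s.f.n + 1, fun r hr => ?_⟩
    change s.f.Wd p p' (true :: r) = false
    rw [Frame.wd_long p p' (by rw [List.length_cons]; omega)]
    exact s.hfin r (by omega)

/-- the pair is disjoint in all constructed worlds -/
theorem disj (p p' : Bool × s.f.W → Bool) {q : List Bool} (hq : q.length ≤ s.L) :
    ¬ (Tr (alg (s.f.Wd p p')) a q ∧ Tr (alg (s.f.Wd p p')) b q) := by
  intro h
  have h1 := s.hdis (s.y p p' fun _ => false) (s.y_mem _ _ _)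
    (s.y_tame fun _ _ => ⟨q, hq.trans s.hL, h⟩) q
  rw [EE_y] at h1
  exact h1 h

open Classical in
/-- the answers of the oracle, for a given free value `v` -/
noncomputable def ans (p p' : Bool × s.f.W → Bool) (v : Bool) : Oracle
  | [] => false
  | false :: r => alg (s.f.Wd p p') r
  | true :: q => if Tr (alg (s.f.Wd p p')) a q then true else
      if Tr (alg (s.f.Wd p p')) b q then false else
      if s.N < q.length then v else s.y₀ (.inr (a, b, q))

theorem ans_y (p p' : Bool × s.f.W → Bool) (κ : Oracle) (r : List Bool) :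
    join (EE X₀ (s.y p p' κ)) (sep X₀ (s.y p p' κ) a b) r = s.ans p p' (κ r.tail) r := by
  match r with
  | [] => rfl
  | false :: r => exact congrFun (s.EE_y p p' κ) r
  | true :: q =>
    change sep X₀ (s.y p p' κ) a b q = _
    unfold sep
    rw [EE_y]
    have h : s.y p p' κ (.inr (a, b, q)) = if s.N < q.length then κ q else s.y₀ (.inr (a, b, q)) := by
      by_cases hq : s.N < q.length
      · rw [if_pos hq]
        exact if_pos ⟨rfl, rfl, hq⟩
      · rw [if_neg hq]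
        exact if_neg fun h => hq h.2.2
    rw [h]
    rfl

end Setup

end ESY.Alg
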